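import Pool.Agent.Lib.MP_3c4a39_co.Close

namespace Pool.Agent.Lib.MP_3c4a39_co

theorem mem_full {h i c : ℕ} (hi : i < h) (hc : c = sh i 10 ∨ c = sh i 11 ∨ c = sh i 12) :
    c ∈ full h := by
  unfold full
  rw [List.mem_flatMap]
  refine ⟨i, List.mem_range.mpr hi, ?_⟩
  simp only [List.mem_cons, List.not_mem_nil, or_false]
  exact hc

theorem mem_full_x {h j : ℕ} (hj : j < h) : 10 + 5 * j ∈ full h :=
  mem_full hj (Or.inl (sh_x (by norm_num)).symm)

theorem mem_full_b {h j : ℕ} (hj : 2 * j < h) : 11 + 5 * j ∈ full h := by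
  refine mem_full hj (Or.inr (Or.inl ?_))
  rw [sh_a (by norm_num)]; omega

theorem mem_full_c {h j : ℕ} (hj : 2 * j < h) : 12 + 5 * j ∈ full h := by
  refine mem_full hj (Or.inr (Or.inr ?_))
  rw [sh_a (by norm_num)]; omega

theorem mem_full_B {h j : ℕ} (hj : 2 * j + 1 < h) : 13 + 5 * j ∈ full h := by
  refine mem_full hj (Or.inr (Or.inl ?_))
  rw [sh_a (by norm_num)]; omega

theorem mem_full_C {h j : ℕ} (hj : 2 * j + 1 < h) : 14 + 5 * j ∈ full h := by
  refine mem_full hj (Or.inr (Or.inr ?_))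
  rw [sh_a (by norm_num)]; omega

theorem mem_core0 {z0 z1 z2 z3 j : ℕ} (hj : j < z0) : 4 * j ∈ core z0 z1 z2 z3 := by
  simp only [core, List.mem_append, List.mem_map, List.mem_range]
  exact Or.inl (Or.inl (Or.inl ⟨j, hj, rfl⟩))

theorem mem_core1 {z0 z1 z2 z3 j : ℕ} (hj : j < z1) : 4 * j + 1 ∈ core z0 z1 z2 z3 := by
  simp only [core, List.mem_append, List.mem_map, List.mem_range]
  exact Or.inl (Or.inl (Or.inr ⟨j, hj, rfl⟩))

theorem mem_core2 {z0 z1 z2 z3 j : ℕ} (hj : j < z2) : 4 * j + 2 ∈ core z0 z1 z2 z3 := by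
  simp only [core, List.mem_append, List.mem_map, List.mem_range]
  exact Or.inl (Or.inr ⟨j, hj, rfl⟩)

theorem mem_core3 {z0 z1 z2 z3 j : ℕ} (hj : j < z3) : 4 * j + 3 ∈ core z0 z1 z2 z3 := by
  simp only [core, List.mem_append, List.mem_map, List.mem_range]
  exact Or.inr ⟨j, hj, rfl⟩

theorem assemble (P : Par) :
    ((full P.h).map P.nuP ++ (core P.z0 P.z1 P.z2 P.z3).map P.muP).Perm
      ((List.range P.b4).map (fun i : ℕ => (i : ℤ))) := by
  symm
  apply List.Subperm.perm_of_length_le
  · apply List.subperm_of_subset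
    · exact (List.nodup_range).map (fun a b hab => by exact_mod_cast hab)
    · intro x hx
      obtain ⟨y, hy, rfl⟩ := List.mem_map.mp hx
      rw [List.mem_range] at hy
      rw [List.mem_append, List.mem_map, List.mem_map]
      obtain ⟨g, h, z0, z1, z2, z3⟩ := P
      cases g
      · have B1 : Par.b1 ⟨false, h, z0, z1, z2, z3⟩ = h + z0 + (h + 1) / 2 := rfl
        have B2 : Par.b2 ⟨false, h, z0, z1, z2, z3⟩ = h + z0 + (h + 1) / 2 + z1 + h / 2 := rfl
        have B3 : Par.b3 ⟨false, h, z0, z1, z2, z3⟩ =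
          h + z0 + (h + 1) / 2 + z1 + h / 2 + z2 + h / 2 := rfl
        have B4 : Par.b4 ⟨false, h, z0, z1, z2, z3⟩ =
          h + z0 + (h + 1) / 2 + z1 + h / 2 + z2 + h / 2 + z3 + (h + 1) / 2 := rfl
        simp only [Par.nuP, Par.muP, Bool.false_eq_true, if_false, B1, B2, B3, B4] at hy ⊢
        rcases lt_or_ge y h with c1 | c1
        · left
          refine ⟨10 + 5 * y, mem_full_x c1, ?_⟩
          rw [nu0 (by omega)]; omega
        rcases lt_or_ge y (h + z0) with c2 | c2
        · right
          refine ⟨4 * (y - h), mem_core0 (by omega), ?_⟩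
          rw [mu0 (by omega)]; omega
        rcases lt_or_ge y (h + z0 + (h + 1) / 2) with c3 | c3
        · left
          refine ⟨11 + 5 * (h + z0 + (h + 1) / 2 - 1 - y), mem_full_b (by omega), ?_⟩
          rw [nu1 (by omega)]; omega
        rcases lt_or_ge y (h + z0 + (h + 1) / 2 + z1) with c4 | c4
        · right
          refine ⟨4 * (y - (h + z0 + (h + 1) / 2)) + 1, mem_core1 (by omega), ?_⟩
          rw [mu1 (by omega)]; omega
        rcases lt_or_ge y (h + z0 + (h + 1) / 2 + z1 + h / 2) with c5 | c5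
        · left
          refine ⟨13 + 5 * (h + z0 + (h + 1) / 2 + z1 + h / 2 - 1 - y),
            mem_full_B (by omega), ?_⟩
          rw [nu3 (by omega)]; omega
        rcases lt_or_ge y (h + z0 + (h + 1) / 2 + z1 + h / 2 + z2) with c6 | c6
        · right
          refine ⟨4 * (y - (h + z0 + (h + 1) / 2 + z1 + h / 2)) + 2, mem_core2 (by omega), ?_⟩
          rw [mu2 (by omega)]; omega
        rcases lt_or_ge y (h + z0 + (h + 1) / 2 + z1 + h / 2 + z2 + h / 2) with c7 | c7
        · left
          refine ⟨14 + 5 * (h + z0 + (h + 1) / 2 + z1 + h / 2 + z2 + h / 2 - 1 - y),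
            mem_full_C (by omega), ?_⟩
          rw [nu4 (by omega)]; omega
        rcases lt_or_ge y (h + z0 + (h + 1) / 2 + z1 + h / 2 + z2 + h / 2 + z3) with c8 | c8
        · right
          refine ⟨4 * (y - (h + z0 + (h + 1) / 2 + z1 + h / 2 + z2 + h / 2)) + 3,
            mem_core3 (by omega), ?_⟩
          rw [mu3 (by omega)]; omega
        · left
          refine ⟨12 + 5 * (h + z0 + (h + 1) / 2 + z1 + h / 2 + z2 + h / 2 + z3 + (h + 1) / 2
            - 1 - y), mem_full_c (by omega), ?_⟩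
          rw [nu2 (by omega)]; omega
      · have B1 : Par.b1 ⟨true, h, z0, z1, z2, z3⟩ = h + z0 + h / 2 := rfl
        have B2 : Par.b2 ⟨true, h, z0, z1, z2, z3⟩ = h + z0 + h / 2 + z1 + (h + 1) / 2 := rfl
        have B3 : Par.b3 ⟨true, h, z0, z1, z2, z3⟩ =
          h + z0 + h / 2 + z1 + (h + 1) / 2 + z2 + (h + 1) / 2 := rfl
        have B4 : Par.b4 ⟨true, h, z0, z1, z2, z3⟩ =
          h + z0 + h / 2 + z1 + (h + 1) / 2 + z2 + (h + 1) / 2 + z3 + h / 2 := rfl
        simp only [Par.nuP, Par.muP, if_true, B1, B2, B3, B4] at hy ⊢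
        rcases lt_or_ge y h with c1 | c1
        · left
          refine ⟨10 + 5 * y, mem_full_x c1, ?_⟩
          rw [nu0 (by omega)]; omega
        rcases lt_or_ge y (h + z0) with c2 | c2
        · right
          refine ⟨4 * (y - h), mem_core0 (by omega), ?_⟩
          rw [mu0 (by omega)]; omega
        rcases lt_or_ge y (h + z0 + h / 2) with c3 | c3
        · left
          refine ⟨13 + 5 * (h + z0 + h / 2 - 1 - y), mem_full_B (by omega), ?_⟩
          rw [nu3 (by omega)]; omega
        rcases lt_or_ge y (h + z0 + h / 2 + z1) with c4 | c4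
        · right
          refine ⟨4 * (y - (h + z0 + h / 2)) + 1, mem_core1 (by omega), ?_⟩
          rw [mu1 (by omega)]; omega
        rcases lt_or_ge y (h + z0 + h / 2 + z1 + (h + 1) / 2) with c5 | c5
        · left
          refine ⟨11 + 5 * (h + z0 + h / 2 + z1 + (h + 1) / 2 - 1 - y),
            mem_full_b (by omega), ?_⟩
          rw [nu1 (by omega)]; omega
        rcases lt_or_ge y (h + z0 + h / 2 + z1 + (h + 1) / 2 + z2) with c6 | c6
        · right
          refine ⟨4 * (y - (h + z0 + h / 2 + z1 + (h + 1) / 2)) + 2, mem_core2 (by omega), ?_⟩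
          rw [mu2 (by omega)]; omega
        rcases lt_or_ge y (h + z0 + h / 2 + z1 + (h + 1) / 2 + z2 + (h + 1) / 2) with c7 | c7
        · left
          refine ⟨12 + 5 * (h + z0 + h / 2 + z1 + (h + 1) / 2 + z2 + (h + 1) / 2 - 1 - y),
            mem_full_c (by omega), ?_⟩
          rw [nu2 (by omega)]; omega
        rcases lt_or_ge y (h + z0 + h / 2 + z1 + (h + 1) / 2 + z2 + (h + 1) / 2 + z3) with c8 | c8
        · right
          refine ⟨4 * (y - (h + z0 + h / 2 + z1 + (h + 1) / 2 + z2 + (h + 1) / 2)) + 3,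
            mem_core3 (by omega), ?_⟩
          rw [mu3 (by omega)]; omega
        · left
          refine ⟨14 + 5 * (h + z0 + h / 2 + z1 + (h + 1) / 2 + z2 + (h + 1) / 2 + z3 + h / 2
            - 1 - y), mem_full_C (by omega), ?_⟩
          rw [nu4 (by omega)]; omega
  · simp only [List.length_append, List.length_map, full_length, List.length_range, core]
    obtain ⟨g, h, z0, z1, z2, z3⟩ := P
    cases g
    · simp only [Par.b1, Par.b2, Par.b3, Par.b4, pO, pI, Bool.false_eq_true, if_false]
      omega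
    · simp only [Par.b1, Par.b2, Par.b3, Par.b4, pO, pI, if_true]
      omega

/-- the check of a closing gadget (list part) -/
def ckc (ao : Bool) (z0 z1 z2 z3 : ℕ) (S r : List ℕ) : Bool :=
  S.all (zok ao z0 z1 z2 z3) && (r ++ S.map (ze ao z0 z1 z2 z3)).isPerm (core z0 z1 z2 z3)

theorem ckc_perm (P : Par) {S r : List ℕ}
    (H : ckc (P.g == (P.h % 2 == 1)) P.z0 P.z1 P.z2 P.z3 S r = true)
    {l : List ℕ} (hl : l.Perm (full P.h ++ S.map (sh P.h))) :
    (r.map P.muP ++ l.map P.nuP).Perm ((List.range P.b4).map (fun i : ℕ => (i : ℤ))) := by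
  rw [ckc, Bool.and_eq_true] at H
  have h1 := List.isPerm_iff.mp H.2
  have h2 := (h1.map P.muP)
  rw [List.map_append] at h2
  have h3 : ((S.map (ze (P.g == (P.h % 2 == 1)) P.z0 P.z1 P.z2 P.z3)).map P.muP) =
      (S.map (sh P.h)).map P.nuP := by
    rw [List.map_map, List.map_map]
    apply List.map_congr_left
    intro c hc
    exact mu_ze P (List.all_eq_true.mp H.1 c hc)
  rw [h3] at h2
  have h4 := hl.map P.nuP
  rw [List.map_append] at h4
  refine List.Perm.trans ?_ (assemble P)
  calc (r.map P.muP ++ l.map P.nuP).Perm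
        (r.map P.muP ++ ((full P.h).map P.nuP ++ (S.map (sh P.h)).map P.nuP)) :=
        List.Perm.append_left _ h4
    _ = (r.map P.muP ++ (full P.h).map P.nuP) ++ (S.map (sh P.h)).map P.nuP := by
        rw [List.append_assoc]
    _ |>.Perm (((full P.h).map P.nuP ++ r.map P.muP) ++ (S.map (sh P.h)).map P.nuP) :=
        List.Perm.append_right _ List.perm_append_comm
    _ = (full P.h).map P.nuP ++ (r.map P.muP ++ (S.map (sh P.h)).map P.nuP) := by
        rw [List.append_assoc]
    _ |>.Perm ((full P.h).map P.nuP ++ (core P.z0 P.z1 P.z2 P.z3).map P.muP) :=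
        List.Perm.append_left _ h2

/-- from a permutation statement with some range to `EM` -/
theorem EM_of {ps : List (List ℤ)} {k : ℤ} {F : List ℕ} {N : ℕ} (h1 : ∀ p ∈ ps, VN k p)
    (h2 : ps.map List.length = F.map (fun n => 2 * n - 1))
    (h3 : ps.flatten.Perm ((List.range N).map (fun i : ℕ => (i : ℤ)))) : EM F := by
  refine ⟨ps, k, h1, h2, ?_⟩
  have : N = (F.map (fun n => 2 * n - 1)).sum := by
    have := h3.length_eq
    rw [List.length_flatten, h2] at this
    simpa using this.symm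
  rw [← this]
  exact h3

end Pool.Agent.Lib.MP_3c4a39_co
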