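import Pool.Agent.Lib.MP_3c4a39_co.Tables

namespace Pool.Agent.Lib.MP_3c4a39_co

theorem exT_ok : exT.all Ex.ok = true := by decide +kernel

theorem stt_ok : (List.range 12).all (fun i => (stt i).ok i && decide ((stt i).j ≤ 12)) = true := by
  decide +kernel

theorem fnn_ok : (List.range 6).all
    (fun r => (fnn r).ok && decide ((fnn r).n ≤ 8) && ((fnn r).n % 6 == r)) = true := by
  decide +kernel

theorem pump_ok : VW T (pumpR ++ [8]) = true ∧ ck [] pumpR 4 [] = true ∧
    (pumpR ++ [8]).head? = some (sh 4 8) := by
  decide +kernel

theorem cle_ok : (List.range 2).all (fun p => (List.range 6).all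
    (fun j => (cle (6 * p + j)).okE p && ((cle (6 * p + j)).n == j + 1))) = true := by
  decide +kernel

theorem clxT_ok : clxT.all (fun x => Cl.ok (fam x.1) x.2.1 x.2.2) = true := by
  decide +kernel

/-- coverage of the transitions -/
theorem cover : (List.range 12).all (fun i => (List.range 30).all (fun n =>
    decide (n < 5) || decide ((stt i).j + (fnn ((n + 12 - (stt i).j) % 6)).n ≤ n) ||
      exT.any (fun e => (e.i == i) && (e.n == n)))) = true := by
  decide +kernel

/-- coverage of the closings -/
theorem cover_cl : (List.range 12).all (fun i => (List.range 2).all (fun p =>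
    (List.range 13).all (fun n =>
      decide (n < 5) || decide ((stt i).j < n) ||
      clxT.any (fun x => (x.1 == i) && (x.2.1 == p) && (x.2.2.n == n))))) = true := by
  decide +kernel

end Pool.Agent.Lib.MP_3c4a39_co
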