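import Pool.Agent.Lib.MP_3c4a39_co.Core

set_option linter.unusedSimpArgs false

namespace Pool.Agent.Lib.MP_3c4a39_co

/-- numeric value of a code -/
def nu (Mb Mc MB MC : ℤ) (c : ℕ) : ℤ :=
  if c % 5 = 0 then ((c / 5 : ℕ) : ℤ) - 2
  else if c % 5 = 1 then Mb - (((c / 5 : ℕ) : ℤ) - 2)
  else if c % 5 = 2 then Mc - (((c / 5 : ℕ) : ℤ) - 2)
  else if c % 5 = 3 then MB - (((c / 5 : ℕ) : ℤ) - 2)
  else MC - (((c / 5 : ℕ) : ℤ) - 2)

section nu
variable {Mb Mc MB MC : ℤ} {c : ℕ}
theorem nu0 (h : c % 5 = 0) : nu Mb Mc MB MC c = ((c / 5 : ℕ) : ℤ) - 2 := by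
  unfold nu; rw [if_pos h]
theorem nu1 (h : c % 5 = 1) : nu Mb Mc MB MC c = Mb - (((c / 5 : ℕ) : ℤ) - 2) := by
  unfold nu; rw [if_neg (by omega), if_pos h]
theorem nu2 (h : c % 5 = 2) : nu Mb Mc MB MC c = Mc - (((c / 5 : ℕ) : ℤ) - 2) := by
  unfold nu; rw [if_neg (by omega), if_neg (by omega), if_pos h]
theorem nu3 (h : c % 5 = 3) : nu Mb Mc MB MC c = MB - (((c / 5 : ℕ) : ℤ) - 2) := by
  unfold nu; rw [if_neg (by omega), if_neg (by omega), if_neg (by omega), if_pos h]
theorem nu4 (h : c % 5 = 4) : nu Mb Mc MB MC c = MC - (((c / 5 : ℕ) : ℤ) - 2) := by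
  unfold nu
  rw [if_neg (by omega), if_neg (by omega), if_neg (by omega), if_neg (by omega)]
end nu

theorem tri_nu {Mb Mc MB MC k : ℤ} (h1 : Mb + Mc = k) (h2 : 1 + MB + MC = k) {x b c : ℕ}
    (H : tri x b c = true) :
    nu Mb Mc MB MC x + nu Mb Mc MB MC b + nu Mb Mc MB MC c = k := by
  rw [tri_iff] at H
  obtain ⟨hx, H⟩ := H
  rcases H with ⟨a1, a2, a3⟩ | ⟨a1, a2, a3⟩
  · rw [nu0 hx, nu1 a1, nu2 a2]
    have : ((x / 5 + 2 : ℕ) : ℤ) = ((b / 5 + c / 5 : ℕ) : ℤ) := by rw [a3]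
    push_cast at this ⊢
    linarith
  · rw [nu0 hx, nu3 a1, nu4 a2]
    have : ((x / 5 + 1 : ℕ) : ℤ) = ((b / 5 + c / 5 : ℕ) : ℤ) := by rw [a3]
    push_cast at this ⊢
    linarith

theorem T_nu {Mb Mc MB MC k : ℤ} (h1 : Mb + Mc = k) (h2 : 1 + MB + MC = k) {a e b : ℕ}
    (H : T a e b = true) :
    nu Mb Mc MB MC a + nu Mb Mc MB MC e + nu Mb Mc MB MC b = k := by
  rw [T_iff] at H
  rcases H with H | H | H | H | H | H <;> · have := tri_nu h1 h2 H; linarith

theorem VN_of_VW {R : ℕ → ℕ → ℕ → Bool} {f : ℕ → ℤ} {k : ℤ}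
    (hf : ∀ a e b, R a e b = true → f a + f e + f b = k) :
    ∀ l : List ℕ, VW R l = true → VN k (l.map f)
  | [], h => by simp [VW] at h
  | [_], _ => by simp [VN]
  | [_, _], h => by simp [VW] at h
  | a :: e :: b :: l, h => by
      rw [VW, Bool.and_eq_true] at h
      rw [List.map_cons, List.map_cons, List.map_cons, VN]
      refine ⟨hf _ _ _ h.1, ?_⟩
      have := VN_of_VW hf (b :: l) h.2
      rwa [List.map_cons] at this

theorem VN_glue {k : ℤ} :
    ∀ (r : List ℤ) (a : ℤ) (t : List ℤ), VN k (r ++ [a]) → VN k (a :: t) →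
      VN k (r ++ a :: t)
  | [], a, t, _, h2 => by simpa using h2
  | [u], a, t, h1, _ => by simp [VN] at h1
  | u :: e :: l, a, t, h1, h2 => by
      cases l with
      | nil =>
        simp only [List.cons_append, List.nil_append, VN] at h1 ⊢
        exact ⟨h1.1, h2⟩
      | cons b l =>
        simp only [List.cons_append, VN] at h1 ⊢
        exact ⟨h1.1, VN_glue (b :: l) a t h1.2 h2⟩

/-- ordered triple test for zone codes (`q % 4` zone, `q / 4` position) -/
def tzo (g : Bool) (p z0 z1 z2 z3 u v w : ℕ) : Bool :=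
  (u % 4 == 0 && v % 4 == 0 && w % 4 == 3 &&
    (if g then u / 4 + v / 4 + w / 4 + 1 + p == z0 + z3
      else u / 4 + v / 4 + w / 4 + 2 == z0 + z3 + p)) ||
  (u % 4 == 0 && v % 4 == 1 && w % 4 == 2 &&
    (if g then u / 4 + v / 4 + w / 4 + 2 == z1 + z2 + p
      else u / 4 + v / 4 + w / 4 + 1 + p == z1 + z2)) ||
  (u % 4 == 1 && v % 4 == 1 && w % 4 == 1 &&
    (if g then u / 4 + v / 4 + w / 4 + z0 + 2 == 2 * z1 + z2 + 2 * p
      else u / 4 + v / 4 + w / 4 + z0 + 1 + 2 * p == 2 * z1 + z2))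

/-- unordered triple test for zone codes -/
def TZ (g : Bool) (p z0 z1 z2 z3 a e b : ℕ) : Bool :=
  tzo g p z0 z1 z2 z3 a e b || tzo g p z0 z1 z2 z3 a b e || tzo g p z0 z1 z2 z3 e a b ||
  tzo g p z0 z1 z2 z3 e b a || tzo g p z0 z1 z2 z3 b a e || tzo g p z0 z1 z2 z3 b e a

/-- numeric value of a zone code -/
def mu (b0 b1 b2 b3 : ℤ) (q : ℕ) : ℤ :=
  if q % 4 = 0 then ((q / 4 : ℕ) : ℤ) + b0
  else if q % 4 = 1 then ((q / 4 : ℕ) : ℤ) + b1
  else if q % 4 = 2 then ((q / 4 : ℕ) : ℤ) + b2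
  else ((q / 4 : ℕ) : ℤ) + b3

section mu
variable {b0 b1 b2 b3 : ℤ} {q : ℕ}
theorem mu0 (h : q % 4 = 0) : mu b0 b1 b2 b3 q = ((q / 4 : ℕ) : ℤ) + b0 := by
  unfold mu; rw [if_pos h]
theorem mu1 (h : q % 4 = 1) : mu b0 b1 b2 b3 q = ((q / 4 : ℕ) : ℤ) + b1 := by
  unfold mu; rw [if_neg (by omega), if_pos h]
theorem mu2 (h : q % 4 = 2) : mu b0 b1 b2 b3 q = ((q / 4 : ℕ) : ℤ) + b2 := by
  unfold mu; rw [if_neg (by omega), if_neg (by omega), if_pos h]
theorem mu3 (h : q % 4 = 3) : mu b0 b1 b2 b3 q = ((q / 4 : ℕ) : ℤ) + b3 := by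
  unfold mu; rw [if_neg (by omega), if_neg (by omega), if_neg (by omega)]
end mu

/-- number of labels of each pool of the outer side below frame `h` -/
def pO (g : Bool) (h : ℕ) : ℕ := if g then h / 2 else (h + 1) / 2
/-- number of labels of each pool of the inner side below frame `h` -/
def pI (g : Bool) (h : ℕ) : ℕ := if g then (h + 1) / 2 else h / 2

/-- zone code of a relative code; `ao` says that the first side is the outer one -/
def ze (ao : Bool) (z0 z1 z2 z3 c : ℕ) : ℕ :=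
  if c % 5 = 0 then 4 * (c / 5 - 2)
  else if (c % 5 = 1 ∧ ao = true) ∨ (c % 5 = 3 ∧ ao = false) then 4 * (z0 + 1 - c / 5)
  else if c % 5 = 1 ∨ c % 5 = 3 then 4 * (z1 + 1 - c / 5) + 1
  else if (c % 5 = 2 ∧ ao = true) ∨ (c % 5 = 4 ∧ ao = false) then 4 * (z3 + 1 - c / 5) + 3
  else 4 * (z2 + 1 - c / 5) + 2

/-- range condition for `ze` -/
def zok (ao : Bool) (z0 z1 z2 z3 c : ℕ) : Bool :=
  if c % 5 = 0 then decide (2 ≤ c / 5)
  else if (c % 5 = 1 ∧ ao = true) ∨ (c % 5 = 3 ∧ ao = false) then decide (c / 5 ≤ z0 + 1)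
  else if c % 5 = 1 ∨ c % 5 = 3 then decide (c / 5 ≤ z1 + 1)
  else if (c % 5 = 2 ∧ ao = true) ∨ (c % 5 = 4 ∧ ao = false) then decide (c / 5 ≤ z3 + 1)
  else decide (c / 5 ≤ z2 + 1)

/-- all core positions -/
def core (z0 z1 z2 z3 : ℕ) : List ℕ :=
  (List.range z0).map (fun i => 4 * i) ++ (List.range z1).map (fun i => 4 * i + 1) ++
  (List.range z2).map (fun i => 4 * i + 2) ++ (List.range z3).map (fun i => 4 * i + 3)

/-- relation between the zone sizes -/
def zrel (g : Bool) (p z1 z3 : ℕ) : Bool :=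
  if g then z3 + 1 == z1 + p else z3 + p == z1 + 1

/-- The numeric parameters of a closing. -/
structure Par where
  g : Bool
  h : ℕ
  z0 : ℕ
  z1 : ℕ
  z2 : ℕ
  z3 : ℕ

namespace Par
variable (P : Par)
def b1 : ℕ := P.h + P.z0 + pO P.g P.h
def b2 : ℕ := P.b1 + P.z1 + pI P.g P.h
def b3 : ℕ := P.b2 + P.z2 + pI P.g P.h
def b4 : ℕ := P.b3 + P.z3 + pO P.g P.h
/-- top value of the outer β pool etc. -/
def nuP (c : ℕ) : ℤ :=
  if P.g then nu ((P.b2 : ℤ) - 1) ((P.b3 : ℤ) - 1) ((P.b1 : ℤ) - 1) ((P.b4 : ℤ) - 1) c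
  else nu ((P.b1 : ℤ) - 1) ((P.b4 : ℤ) - 1) ((P.b2 : ℤ) - 1) ((P.b3 : ℤ) - 1) c
def muP (q : ℕ) : ℤ := mu P.h P.b1 P.b2 P.b3 q
def k : ℤ := if P.g then (P.b2 : ℤ) + P.b3 - 2 else (P.b1 : ℤ) + P.b4 - 2
end Par

theorem T_nuP (P : Par) (hz : zrel P.g (P.h % 2) P.z1 P.z3 = true) {a e b : ℕ}
    (H : T a e b = true) : P.nuP a + P.nuP e + P.nuP b = P.k := by
  obtain ⟨g, h, z0, z1, z2, z3⟩ := P
  cases g
  · simp only [zrel, Bool.false_eq_true, if_false, beq_iff_eq] at hz
    simp only [Par.nuP, Par.k, Bool.false_eq_true, if_false]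
    apply T_nu _ _ H
    · ring
    · simp only [Par.b1, Par.b2, Par.b3, Par.b4, pO, pI, Bool.false_eq_true, if_false]
      push_cast
      omega
  · simp only [zrel, if_true, beq_iff_eq] at hz
    simp only [Par.nuP, Par.k, if_true]
    apply T_nu _ _ H
    · ring
    · simp only [Par.b1, Par.b2, Par.b3, Par.b4, pO, pI, if_true]
      push_cast
      omega

theorem tzo_mu (P : Par) (hz : zrel P.g (P.h % 2) P.z1 P.z3 = true) {u v w : ℕ}
    (H : tzo P.g (P.h % 2) P.z0 P.z1 P.z2 P.z3 u v w = true) :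
    P.muP u + P.muP v + P.muP w = P.k := by
  obtain ⟨g, h, z0, z1, z2, z3⟩ := P
  cases g
  · simp only [zrel, Bool.false_eq_true, if_false, beq_iff_eq] at hz
    simp only [tzo, Bool.false_eq_true, if_false, Bool.or_eq_true, Bool.and_eq_true,
      beq_iff_eq] at H
    rcases H with (⟨⟨⟨a1, a2⟩, a3⟩, a4⟩ | ⟨⟨⟨a1, a2⟩, a3⟩, a4⟩) | ⟨⟨⟨a1, a2⟩, a3⟩, a4⟩
    · simp only [Par.muP, Par.k, mu0 a1, mu0 a2, mu3 a3, Bool.false_eq_true, if_false,
        Par.b1, Par.b2, Par.b3, Par.b4, pO, pI]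
      push_cast
      omega
    · simp only [Par.muP, Par.k, mu0 a1, mu1 a2, mu2 a3, Bool.false_eq_true, if_false,
        Par.b1, Par.b2, Par.b3, Par.b4, pO, pI]
      push_cast
      omega
    · simp only [Par.muP, Par.k, mu1 a1, mu1 a2, mu1 a3, Bool.false_eq_true, if_false,
        Par.b1, Par.b2, Par.b3, Par.b4, pO, pI]
      push_cast
      omega
  · simp only [zrel, if_true, beq_iff_eq] at hz
    simp only [tzo, if_true, Bool.or_eq_true, Bool.and_eq_true, beq_iff_eq] at H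
    rcases H with (⟨⟨⟨a1, a2⟩, a3⟩, a4⟩ | ⟨⟨⟨a1, a2⟩, a3⟩, a4⟩) | ⟨⟨⟨a1, a2⟩, a3⟩, a4⟩
    · simp only [Par.muP, Par.k, mu0 a1, mu0 a2, mu3 a3, if_true,
        Par.b1, Par.b2, Par.b3, Par.b4, pO, pI]
      push_cast
      omega
    · simp only [Par.muP, Par.k, mu0 a1, mu1 a2, mu2 a3, if_true,
        Par.b1, Par.b2, Par.b3, Par.b4, pO, pI]
      push_cast
      omega
    · simp only [Par.muP, Par.k, mu1 a1, mu1 a2, mu1 a3, if_true,
        Par.b1, Par.b2, Par.b3, Par.b4, pO, pI]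
      push_cast
      omega

theorem TZ_mu (P : Par) (hz : zrel P.g (P.h % 2) P.z1 P.z3 = true) {a e b : ℕ}
    (H : TZ P.g (P.h % 2) P.z0 P.z1 P.z2 P.z3 a e b = true) :
    P.muP a + P.muP e + P.muP b = P.k := by
  simp only [TZ, Bool.or_eq_true] at H
  rcases H with ((((H | H) | H) | H) | H) | H <;> · have := tzo_mu P hz H; linarith

theorem mu_ze (P : Par) {c : ℕ}
    (H : zok (P.g == (P.h % 2 == 1)) P.z0 P.z1 P.z2 P.z3 c = true) :
    P.muP (ze (P.g == (P.h % 2 == 1)) P.z0 P.z1 P.z2 P.z3 c) = P.nuP (sh P.h c) := by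
  obtain ⟨g, h, z0, z1, z2, z3⟩ := P
  have hc : c % 5 = 0 ∨ c % 5 = 1 ∨ c % 5 = 2 ∨ c % 5 = 3 ∨ c % 5 = 4 := by omega
  have hh : h % 2 = 0 ∨ h % 2 = 1 := by omega
  cases g
  · rcases hh with hh | hh
    · simp only [hh, Nat.zero_ne_one, beq_iff_eq, zok, ze] at H ⊢
      rcases hc with hc | hc | hc | hc | hc
      · simp [hc] at H
        simp [hc, Par.muP, Par.nuP]
        rw [mu0 (by omega), sh_x hc, nu0 (by omega)]
        omega
      · simp [hc] at H
        simp [hc, Par.muP, Par.nuP]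
        rw [mu0 (by omega), sh_a (Or.inl hc), nu1 (by omega)]
        simp only [Par.b1, pO, Bool.false_eq_true, if_false]
        push_cast
        omega
      · simp [hc] at H
        simp [hc, Par.muP, Par.nuP]
        rw [mu3 (by omega), sh_a (Or.inr hc), nu2 (by omega)]
        simp only [Par.b1, Par.b2, Par.b3, Par.b4, pO, pI, Bool.false_eq_true, if_false]
        push_cast
        omega
      · simp [hc] at H
        simp [hc, Par.muP, Par.nuP]
        rw [mu1 (by omega), sh_b (Or.inl hc), nu3 (by omega)]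
        simp only [Par.b1, Par.b2, Par.b3, Par.b4, pO, pI, Bool.false_eq_true, if_false]
        push_cast
        omega
      · simp [hc] at H
        simp [hc, Par.muP, Par.nuP]
        rw [mu2 (by omega), sh_b (Or.inr hc), nu4 (by omega)]
        simp only [Par.b1, Par.b2, Par.b3, Par.b4, pO, pI, Bool.false_eq_true, if_false]
        push_cast
        omega
    · simp only [hh, beq_iff_eq, zok, ze] at H ⊢
      rcases hc with hc | hc | hc | hc | hc
      · simp [hc] at H
        simp [hc, Par.muP, Par.nuP]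
        rw [mu0 (by omega), sh_x hc, nu0 (by omega)]
        omega
      · simp [hc] at H
        simp [hc, Par.muP, Par.nuP]
        rw [mu1 (by omega), sh_a (Or.inl hc), nu3 (by omega)]
        simp only [Par.b1, Par.b2, Par.b3, Par.b4, pO, pI, Bool.false_eq_true, if_false]
        push_cast
        omega
      · simp [hc] at H
        simp [hc, Par.muP, Par.nuP]
        rw [mu2 (by omega), sh_a (Or.inr hc), nu4 (by omega)]
        simp only [Par.b1, Par.b2, Par.b3, Par.b4, pO, pI, Bool.false_eq_true, if_false]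
        push_cast
        omega
      · simp [hc] at H
        simp [hc, Par.muP, Par.nuP]
        rw [mu0 (by omega), sh_b (Or.inl hc), nu1 (by omega)]
        simp only [Par.b1, Par.b2, Par.b3, Par.b4, pO, pI, Bool.false_eq_true, if_false]
        push_cast
        omega
      · simp [hc] at H
        simp [hc, Par.muP, Par.nuP]
        rw [mu3 (by omega), sh_b (Or.inr hc), nu2 (by omega)]
        simp only [Par.b1, Par.b2, Par.b3, Par.b4, pO, pI, Bool.false_eq_true, if_false]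
        push_cast
        omega
  · rcases hh with hh | hh
    · simp only [hh, beq_iff_eq, zok, ze] at H ⊢
      rcases hc with hc | hc | hc | hc | hc
      · simp [hc] at H
        simp [hc, Par.muP, Par.nuP]
        rw [mu0 (by omega), sh_x hc, nu0 (by omega)]
        omega
      · simp [hc] at H
        simp [hc, Par.muP, Par.nuP]
        rw [mu1 (by omega), sh_a (Or.inl hc), nu1 (by omega)]
        simp only [Par.b1, Par.b2, Par.b3, Par.b4, pO, pI, if_true]
        push_cast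
        omega
      · simp [hc] at H
        simp [hc, Par.muP, Par.nuP]
        rw [mu2 (by omega), sh_a (Or.inr hc), nu2 (by omega)]
        simp only [Par.b1, Par.b2, Par.b3, Par.b4, pO, pI, if_true]
        push_cast
        omega
      · simp [hc] at H
        simp [hc, Par.muP, Par.nuP]
        rw [mu0 (by omega), sh_b (Or.inl hc), nu3 (by omega)]
        simp only [Par.b1, Par.b2, Par.b3, Par.b4, pO, pI, if_true]
        push_cast
        omega
      · simp [hc] at H
        simp [hc, Par.muP, Par.nuP]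
        rw [mu3 (by omega), sh_b (Or.inr hc), nu4 (by omega)]
        simp only [Par.b1, Par.b2, Par.b3, Par.b4, pO, pI, if_true]
        push_cast
        omega
    · simp only [hh, beq_iff_eq, zok, ze] at H ⊢
      rcases hc with hc | hc | hc | hc | hc
      · simp [hc] at H
        simp [hc, Par.muP, Par.nuP]
        rw [mu0 (by omega), sh_x hc, nu0 (by omega)]
        omega
      · simp [hc] at H
        simp [hc, Par.muP, Par.nuP]
        rw [mu0 (by omega), sh_a (Or.inl hc), nu3 (by omega)]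
        simp only [Par.b1, Par.b2, Par.b3, Par.b4, pO, pI, if_true]
        push_cast
        omega
      · simp [hc] at H
        simp [hc, Par.muP, Par.nuP]
        rw [mu3 (by omega), sh_a (Or.inr hc), nu4 (by omega)]
        simp only [Par.b1, Par.b2, Par.b3, Par.b4, pO, pI, if_true]
        push_cast
        omega
      · simp [hc] at H
        simp [hc, Par.muP, Par.nuP]
        rw [mu1 (by omega), sh_b (Or.inl hc), nu1 (by omega)]
        simp only [Par.b1, Par.b2, Par.b3, Par.b4, pO, pI, if_true]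
        push_cast
        omega
      · simp [hc] at H
        simp [hc, Par.muP, Par.nuP]
        rw [mu2 (by omega), sh_b (Or.inr hc), nu2 (by omega)]
        simp only [Par.b1, Par.b2, Par.b3, Par.b4, pO, pI, if_true]
        push_cast
        omega

end Pool.Agent.Lib.MP_3c4a39_co
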