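import Pool.Agent.Lib.MP_3c4a39_co.Defs

/-!
Labels are coded by natural numbers: `c % 5` is the pool (`0`: block A, `1,2`: the two pools of
the first side, `3,4`: the two pools of the second side), and `c / 5 - 2` is the index.
-/

namespace Pool.Agent.Lib.MP_3c4a39_co

/-- Shift of codes by `h` half steps. -/
def sh (h c : ℕ) : ℕ :=
  if c % 5 = 0 then c + 5 * h
  else if c % 5 ≤ 2 then c + 5 * (h / 2) + 2 * (h % 2)
  else c + 5 * (h / 2) + 3 * (h % 2)

theorem sh_zero (c : ℕ) : sh 0 c = c := by
  unfold sh; split_ifs <;> simp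

theorem sh_x {h c : ℕ} (hc : c % 5 = 0) : sh h c = c + 5 * h := by
  unfold sh; rw [if_pos hc]

theorem sh_a {h c : ℕ} (hc : c % 5 = 1 ∨ c % 5 = 2) : sh h c = c + 5 * (h / 2) + 2 * (h % 2) := by
  unfold sh; rw [if_neg (by omega), if_pos (by omega)]

theorem sh_b {h c : ℕ} (hc : c % 5 = 3 ∨ c % 5 = 4) : sh h c = c + 5 * (h / 2) + 3 * (h % 2) := by
  unfold sh; rw [if_neg (by omega), if_neg (by omega)]

theorem sh_add (h s c : ℕ) : sh (h + s) c = sh h (sh s c) := by
  have hc : c % 5 = 0 ∨ (c % 5 = 1 ∨ c % 5 = 2) ∨ (c % 5 = 3 ∨ c % 5 = 4) := by omega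
  rcases hc with hc | hc | hc
  · rw [sh_x hc, sh_x hc, sh_x (by omega)]; ring
  · rw [sh_a hc, sh_a hc]
    rcases Nat.mod_two_eq_zero_or_one s with hs | hs
    · rw [hs, sh_a (by omega)]; omega
    · rw [hs, sh_b (by omega)]; omega
  · rw [sh_b hc, sh_b hc]
    rcases Nat.mod_two_eq_zero_or_one s with hs | hs
    · rw [hs, sh_b (by omega)]; omega
    · rw [hs, sh_a (by omega)]; omega

theorem sh_map_add (h s : ℕ) (l : List ℕ) : l.map (sh (h + s)) = (l.map (sh s)).map (sh h) := by
  rw [List.map_map]
  apply List.map_congr_left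
  intro c _
  exact sh_add h s c

/-- ordered triple condition -/
def tri (x b c : ℕ) : Bool :=
  (x % 5 == 0) &&
    (((b % 5 == 1) && (c % 5 == 2) && (x / 5 + 2 == b / 5 + c / 5)) ||
     ((b % 5 == 3) && (c % 5 == 4) && (x / 5 + 1 == b / 5 + c / 5)))

/-- unordered triple condition -/
def T (a e b : ℕ) : Bool :=
  tri a e b || tri a b e || tri e a b || tri e b a || tri b a e || tri b e a

theorem tri_iff (x b c : ℕ) : tri x b c = true ↔
    x % 5 = 0 ∧ ((b % 5 = 1 ∧ c % 5 = 2 ∧ x / 5 + 2 = b / 5 + c / 5) ∨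
      (b % 5 = 3 ∧ c % 5 = 4 ∧ x / 5 + 1 = b / 5 + c / 5)) := by
  simp [tri, and_assoc]

theorem T_iff (a e b : ℕ) : T a e b = true ↔
    tri a e b = true ∨ tri a b e = true ∨ tri e a b = true ∨ tri e b a = true ∨
      tri b a e = true ∨ tri b e a = true := by
  simp [T, or_assoc]

theorem tri_sh {x b c : ℕ} (h : ℕ) (H : tri x b c = true) :
    tri (sh h x) (sh h b) (sh h c) = true := by
  rw [tri_iff] at H ⊢
  obtain ⟨hx, H⟩ := H
  rcases H with ⟨h1, h2, h3⟩ | ⟨h1, h2, h3⟩
  · have e1 : sh h x = x + 5 * h := by unfold sh; rw [if_pos hx]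
    have e2 : sh h b = b + 5 * (h / 2) + 2 * (h % 2) := by
      unfold sh; rw [if_neg (by omega), if_pos (by omega)]
    have e3 : sh h c = c + 5 * (h / 2) + 2 * (h % 2) := by
      unfold sh; rw [if_neg (by omega), if_pos (by omega)]
    rw [e1, e2, e3]
    refine ⟨by omega, ?_⟩
    rcases Nat.mod_two_eq_zero_or_one h with hh | hh
    · left; refine ⟨by omega, by omega, by omega⟩
    · right; refine ⟨by omega, by omega, by omega⟩
  · have e1 : sh h x = x + 5 * h := by unfold sh; rw [if_pos hx]
    have e2 : sh h b = b + 5 * (h / 2) + 3 * (h % 2) := by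
      unfold sh; rw [if_neg (by omega), if_neg (by omega)]
    have e3 : sh h c = c + 5 * (h / 2) + 3 * (h % 2) := by
      unfold sh; rw [if_neg (by omega), if_neg (by omega)]
    rw [e1, e2, e3]
    refine ⟨by omega, ?_⟩
    rcases Nat.mod_two_eq_zero_or_one h with hh | hh
    · right; refine ⟨by omega, by omega, by omega⟩
    · left; refine ⟨by omega, by omega, by omega⟩

theorem T_sh {a e b : ℕ} (h : ℕ) (H : T a e b = true) :
    T (sh h a) (sh h e) (sh h b) = true := by
  rw [T_iff] at H ⊢
  rcases H with H | H | H | H | H | H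
  · exact Or.inl (tri_sh h H)
  · exact Or.inr (Or.inl (tri_sh h H))
  · exact Or.inr (Or.inr (Or.inl (tri_sh h H)))
  · exact Or.inr (Or.inr (Or.inr (Or.inl (tri_sh h H))))
  · exact Or.inr (Or.inr (Or.inr (Or.inr (Or.inl (tri_sh h H)))))
  · exact Or.inr (Or.inr (Or.inr (Or.inr (Or.inr (tri_sh h H)))))

/-- swap of the two pools of each side -/
def mir (c : ℕ) : ℕ :=
  if c % 5 = 1 then c + 1 else if c % 5 = 2 then c - 1
  else if c % 5 = 3 then c + 1 else if c % 5 = 4 then c - 1 else c

theorem mir_sh (h c : ℕ) : mir (sh h c) = sh h (mir c) := by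
  unfold mir sh
  rcases Nat.mod_two_eq_zero_or_one h with hh | hh
  · rw [hh]; split_ifs <;> omega
  · rw [hh]; split_ifs <;> omega

theorem tri_mir {x b c : ℕ} (H : tri x b c = true) : tri (mir x) (mir c) (mir b) = true := by
  rw [tri_iff] at H ⊢
  obtain ⟨hx, H⟩ := H
  have e1 : mir x = x := by unfold mir; split_ifs <;> omega
  rcases H with ⟨h1, h2, h3⟩ | ⟨h1, h2, h3⟩
  · have e2 : mir b = b + 1 := by unfold mir; rw [if_pos h1]
    have e3 : mir c = c - 1 := by unfold mir; rw [if_neg (by omega), if_pos h2]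
    rw [e1, e2, e3]
    exact ⟨hx, Or.inl ⟨by omega, by omega, by omega⟩⟩
  · have e2 : mir b = b + 1 := by
      unfold mir; rw [if_neg (by omega), if_neg (by omega), if_pos h1]
    have e3 : mir c = c - 1 := by
      unfold mir; rw [if_neg (by omega), if_neg (by omega), if_neg (by omega), if_pos h2]
    rw [e1, e2, e3]
    exact ⟨hx, Or.inr ⟨by omega, by omega, by omega⟩⟩

theorem T_mir {a e b : ℕ} (H : T a e b = true) :
    T (mir a) (mir e) (mir b) = true := by
  rw [T_iff] at H ⊢
  rcases H with H | H | H | H | H | H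
  · exact Or.inr (Or.inl (tri_mir H))
  · exact Or.inl (tri_mir H)
  · exact Or.inr (Or.inr (Or.inr (Or.inl (tri_mir H))))
  · exact Or.inr (Or.inr (Or.inl (tri_mir H)))
  · exact Or.inr (Or.inr (Or.inr (Or.inr (Or.inr (tri_mir H)))))
  · exact Or.inr (Or.inr (Or.inr (Or.inr (Or.inl (tri_mir H)))))

/-- validity of a path of codes with respect to a triple test -/
def VW (R : ℕ → ℕ → ℕ → Bool) : List ℕ → Bool
  | [_] => true
  | a :: e :: b :: l => R a e b && VW R (b :: l)
  | _ => false

theorem VW_map {R R' : ℕ → ℕ → ℕ → Bool} {f : ℕ → ℕ}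
    (hf : ∀ a e b, R a e b = true → R' (f a) (f e) (f b) = true) :
    ∀ l : List ℕ, VW R l = true → VW R' (l.map f) = true
  | [], h => by simp [VW] at h
  | [_], _ => by simp [VW]
  | [_, _], h => by simp [VW] at h
  | a :: e :: b :: l, h => by
      rw [VW, Bool.and_eq_true] at h
      rw [List.map_cons, List.map_cons, List.map_cons, VW, Bool.and_eq_true]
      refine ⟨hf _ _ _ h.1, ?_⟩
      have := VW_map hf (b :: l) h.2
      rwa [List.map_cons] at this

theorem VW_glue {R : ℕ → ℕ → ℕ → Bool} :
    ∀ (r : List ℕ) (a : ℕ) (t : List ℕ), VW R (r ++ [a]) = true → VW R (a :: t) = true →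
      VW R (r ++ a :: t) = true
  | [], a, t, _, h2 => by simpa using h2
  | [u], a, t, h1, _ => by simp [VW] at h1
  | u :: e :: l, a, t, h1, h2 => by
      cases l with
      | nil =>
        simp only [List.cons_append, List.nil_append, VW, Bool.and_eq_true] at h1 ⊢
        exact ⟨h1.1, h2⟩
      | cons b l =>
        simp only [List.cons_append, VW, Bool.and_eq_true] at h1 ⊢
        exact ⟨h1.1, VW_glue (b :: l) a t h1.2 h2⟩

/-- all codes below frame `h` -/
def full (h : ℕ) : List ℕ := (List.range h).flatMap (fun i => [sh i 10, sh i 11, sh i 12])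

theorem full_zero : full 0 = [] := rfl

theorem full_succ (h : ℕ) : full (h + 1) = full h ++ [sh h 10, sh h 11, sh h 12] := by
  simp [full, List.range_succ]

theorem full_add (h s : ℕ) : full (h + s) = full h ++ (full s).map (sh h) := by
  induction s with
  | zero => simp [full_zero]
  | succ s ih =>
    rw [← Nat.add_assoc, full_succ, full_succ, ih]
    simp [sh_add]

theorem full_mir (h : ℕ) : ((full h).map mir).Perm (full h) := by
  induction h with
  | zero => simp [full_zero]
  | succ h ih =>
    rw [full_succ, List.map_append]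
    refine ih.append ?_
    simp only [List.map_cons, List.map_nil, mir_sh]
    have e1 : mir 10 = 10 := rfl
    have e2 : mir 11 = 12 := rfl
    have e3 : mir 12 = 11 := rfl
    rw [e1, e2, e3]
    exact List.Perm.cons _ (List.Perm.swap _ _ _)

theorem full_length (h : ℕ) : (full h).length = 3 * h := by
  induction h with
  | zero => simp [full_zero]
  | succ h ih => rw [full_succ, List.length_append, ih]; simp; ring

/-- partial labelling with `F` completed components at frame `h`, the codes used being
`full h` and the profile `S` -/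
def Inv (h : ℕ) (S : List ℕ) (F : List ℕ) : Prop :=
  ∃ ps : List (List ℕ), (∀ p ∈ ps, VW T p = true) ∧
    ps.map List.length = F.map (fun n => 2 * n - 1) ∧
    ps.flatten.Perm (full h ++ S.map (sh h))

/-- the same with an active component with `m` vertices so far, ending in `e` -/
def InvA (h : ℕ) (S : List ℕ) (e m : ℕ) (F : List ℕ) : Prop :=
  ∃ (c : List ℕ) (ps : List (List ℕ)), (∀ p ∈ ps, VW T p = true) ∧
    ps.map List.length = F.map (fun n => 2 * n - 1) ∧
    VW T (sh h e :: c) = true ∧ c.length + 2 = 2 * m ∧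
    ((sh h e :: c) ++ ps.flatten).Perm (full h ++ S.map (sh h))

/-- the check of a gadget -/
def ck (S r : List ℕ) (s : ℕ) (S' : List ℕ) : Bool :=
  (r ++ S).isPerm (full s ++ S'.map (sh s))

theorem ck_perm {S r : List ℕ} {s : ℕ} {S' : List ℕ} (h : ℕ) (H : ck S r s S' = true)
    {l : List ℕ} (hl : l.Perm (full h ++ S.map (sh h))) :
    (r.map (sh h) ++ l).Perm (full (h + s) ++ S'.map (sh (h + s))) := by
  have h1 : (r ++ S).Perm (full s ++ S'.map (sh s)) := List.isPerm_iff.mp H
  have h2 := h1.map (sh h)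
  rw [List.map_append, List.map_append] at h2
  rw [full_add, sh_map_add, List.append_assoc]
  calc (r.map (sh h) ++ l).Perm (r.map (sh h) ++ (full h ++ S.map (sh h))) :=
        List.Perm.append_left _ hl
    _ = (r.map (sh h) ++ full h) ++ S.map (sh h) := by rw [List.append_assoc]
    _ |>.Perm ((full h ++ r.map (sh h)) ++ S.map (sh h)) :=
        List.Perm.append_right _ List.perm_append_comm
    _ = full h ++ (r.map (sh h) ++ S.map (sh h)) := by rw [List.append_assoc]
    _ |>.Perm (full h ++ ((full s).map (sh h) ++ (S'.map (sh s)).map (sh h))) :=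
        List.Perm.append_left _ h2

theorem Inv.zero : Inv 0 [] [] := ⟨[], by simp, by simp, by simp [full_zero]⟩

theorem Inv.exact {h : ℕ} {S F : List ℕ} (H : Inv h S F) (n : ℕ) (r : List ℕ) (s : ℕ)
    (S' : List ℕ) (h1 : VW T r = true) (h2 : r.length = 2 * n - 1) (h3 : ck S r s S' = true) :
    Inv (h + s) S' (n :: F) := by
  obtain ⟨ps, hv, hlen, hp⟩ := H
  refine ⟨r.map (sh h) :: ps, ?_, ?_, ?_⟩
  · intro p hp'
    rcases List.mem_cons.mp hp' with rfl | hp'
    · exact VW_map (R := T) (R' := T) (fun a e b => T_sh h) r h1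
    · exact hv p hp'
  · simp [hlen, h2]
  · rw [List.flatten_cons]
    exact ck_perm h h3 hp

theorem Inv.start {h : ℕ} {S F : List ℕ} (H : Inv h S F) (m : ℕ) (r : List ℕ) (s : ℕ)
    (S' : List ℕ) (e : ℕ) (h1 : VW T r = true) (h2 : r.length + 1 = 2 * m)
    (h3 : ck S r s S' = true) (h4 : r.head? = some (sh s e)) :
    InvA (h + s) S' e m F := by
  obtain ⟨ps, hv, hlen, hp⟩ := H
  cases r with
  | nil => simp at h4
  | cons a r =>
    simp only [List.head?_cons, Option.some.injEq] at h4
    refine ⟨r.map (sh h), ps, hv, hlen, ?_, ?_, ?_⟩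
    · have := VW_map (R := T) (R' := T) (fun a e b => T_sh h) _ h1
      rw [List.map_cons, h4, ← sh_add] at this
      exact this
    · rw [List.length_map]
      simp only [List.length_cons] at h2
      omega
    · have := ck_perm h h3 hp
      rw [List.map_cons, h4, ← sh_add] at this
      exact this

theorem InvA.cont {h : ℕ} {S F : List ℕ} {e m : ℕ} (H : InvA h S e m F) (m' : ℕ) (r : List ℕ)
    (s : ℕ) (S' : List ℕ) (e' : ℕ) (h1 : VW T (r ++ [e]) = true) (h2 : r.length = 2 * m')
    (h3 : ck S r s S' = true) (h4 : (r ++ [e]).head? = some (sh s e')) :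
    InvA (h + s) S' e' (m + m') F := by
  obtain ⟨c, ps, hv, hlen, hc, hcl, hp⟩ := H
  have key : VW T (r.map (sh h) ++ sh h e :: c) = true := by
    apply VW_glue
    · have := VW_map (R := T) (R' := T) (fun a e b => T_sh h) _ h1
      rw [List.map_append] at this
      exact this
    · exact hc
  have hperm := ck_perm h h3 hp
  cases r with
  | nil =>
    simp only [List.nil_append, List.head?_cons, Option.some.injEq] at h4
    simp only [List.map_nil, List.nil_append] at key hperm
    rw [h4, ← sh_add] at key hperm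
    refine ⟨c, ps, hv, hlen, key, ?_, hperm⟩
    simp at h2
    omega
  | cons a r =>
    simp only [List.cons_append, List.head?_cons, Option.some.injEq] at h4
    simp only [List.map_cons, List.cons_append] at key hperm
    rw [h4, ← sh_add] at key hperm
    refine ⟨r.map (sh h) ++ sh h e :: c, ps, hv, hlen, key, ?_, ?_⟩
    · simp at h2 ⊢
      omega
    · simpa [List.append_assoc] using hperm

theorem InvA.finish {h : ℕ} {S F : List ℕ} {e m : ℕ} (H : InvA h S e m F) :
    Inv h S (m :: F) := by
  obtain ⟨c, ps, hv, hlen, hc, hcl, hp⟩ := H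
  refine ⟨(sh h e :: c) :: ps, ?_, ?_, ?_⟩
  · intro p hp'
    rcases List.mem_cons.mp hp' with rfl | hp'
    · exact hc
    · exact hv p hp'
  · simp only [List.map_cons, hlen, List.length_cons]
    congr 1
    omega
  · rw [List.flatten_cons]; exact hp

theorem map_mir_perm {h : ℕ} {S : List ℕ} {l : List ℕ} (hp : l.Perm (full h ++ S.map (sh h))) :
    (l.map mir).Perm (full h ++ (S.map mir).map (sh h)) := by
  have h1 := hp.map mir
  rw [List.map_append] at h1
  have h2 : (S.map (sh h)).map mir = (S.map mir).map (sh h) := by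
    rw [List.map_map, List.map_map]
    apply List.map_congr_left
    intro c _
    exact mir_sh h c
  rw [h2] at h1
  exact h1.trans (List.Perm.append_right _ (full_mir h))

theorem Inv.mirror {h : ℕ} {S F : List ℕ} (H : Inv h S F) : Inv h (S.map mir) F := by
  obtain ⟨ps, hv, hlen, hp⟩ := H
  refine ⟨ps.map (List.map mir), ?_, ?_, ?_⟩
  · intro p hp'
    obtain ⟨q, hq, rfl⟩ := List.mem_map.mp hp'
    exact VW_map (R := T) (R' := T) (fun a e b => T_mir) q (hv q hq)
  · rw [← hlen, List.map_map]
    apply List.map_congr_left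
    intro p _
    simp
  · rw [← List.map_flatten]
    exact map_mir_perm hp

theorem InvA.mirror {h : ℕ} {S F : List ℕ} {e m : ℕ} (H : InvA h S e m F) :
    InvA h (S.map mir) (mir e) m F := by
  obtain ⟨c, ps, hv, hlen, hc, hcl, hp⟩ := H
  refine ⟨c.map mir, ps.map (List.map mir), ?_, ?_, ?_, ?_, ?_⟩
  · intro p hp'
    obtain ⟨q, hq, rfl⟩ := List.mem_map.mp hp'
    exact VW_map (R := T) (R' := T) (fun a e b => T_mir) q (hv q hq)
  · rw [← hlen, List.map_map]
    apply List.map_congr_left
    intro p _
    simp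
  · have := VW_map (R := T) (R' := T) (fun a e b => T_mir) _ hc
    rwa [List.map_cons, mir_sh] at this
  · simpa using hcl
  · have := map_mir_perm hp
    rw [List.map_append, List.map_cons, mir_sh, List.map_flatten] at this
    exact this

end Pool.Agent.Lib.MP_3c4a39_co
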