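import Mathlib

namespace Pool.Agent.Lib.MP_3c4a39_co

/-- A numeric path labelling `[v₁, e₁, v₂, e₂, …, vₙ]` all of whose edge sums are `k`. -/
def VN (k : ℤ) : List ℤ → Prop
  | [_] => True
  | a :: e :: b :: l => a + e + b = k ∧ VN k (b :: l)
  | _ => False

/-- The linear forest with component orders `F` (each `≥ 1`) has an edge-magic labelling,
in list form and with labels `0, …, N-1`. -/
def EM (F : List ℕ) : Prop :=
  ∃ (ps : List (List ℤ)) (k : ℤ), (∀ p ∈ ps, VN k p) ∧
    ps.map List.length = F.map (fun n => 2 * n - 1) ∧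
    ps.flatten.Perm ((List.range (F.map (fun n => 2 * n - 1)).sum).map (fun i : ℕ => (i : ℤ)))

end Pool.Agent.Lib.MP_3c4a39_co
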