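import Pool.Agent.Lib.MP_3c4a39_co.Assemble

namespace Pool.Agent.Lib.MP_3c4a39_co

theorem map_map_len (f : ℕ → ℤ) (ps : List (List ℕ)) :
    (ps.map (List.map f)).map List.length = ps.map List.length := by
  rw [List.map_map]
  apply List.map_congr_left
  intro p _
  simp

theorem VN_mu (P : Par) (r : List ℕ) (h0 : zrel P.g (P.h % 2) P.z1 P.z3 = true)
    (h1 : VW (TZ P.g (P.h % 2) P.z0 P.z1 P.z2 P.z3) r = true) : VN P.k (r.map P.muP) :=
  VN_of_VW (R := TZ P.g (P.h % 2) P.z0 P.z1 P.z2 P.z3) (fun _ _ _ H => TZ_mu P h0 H) r h1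

theorem VN_nu (P : Par) (r : List ℕ) (h0 : zrel P.g (P.h % 2) P.z1 P.z3 = true)
    (h1 : VW T r = true) : VN P.k (r.map P.nuP) :=
  VN_of_VW (R := T) (fun _ _ _ H => T_nuP P h0 H) r h1

theorem finish_aux (P : Par) {ps : List (List ℕ)} {q : List ℤ} {F : List ℕ} {n : ℕ}
    (h0 : zrel P.g (P.h % 2) P.z1 P.z3 = true)
    (hv : ∀ p ∈ ps, VW T p = true) (hlen : ps.map List.length = F.map (fun n => 2 * n - 1))
    (hA : VN P.k q) (hq : q.length = 2 * n - 1)
    (hC : (q ++ ps.flatten.map P.nuP).Perm ((List.range P.b4).map (fun i : ℕ => (i : ℤ)))) :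
    EM (n :: F) := by
  apply EM_of (ps := q :: ps.map (List.map P.nuP)) (k := P.k) (N := P.b4)
  · intro p hp'
    rcases List.mem_cons.mp hp' with h | h
    · rw [h]; exact hA
    · obtain ⟨p', hp'', rfl⟩ := List.mem_map.mp h
      exact VN_nu P p' h0 (hv p' hp'')
  · rw [List.map_cons, map_map_len, hlen, hq, List.map_cons]
  · rw [List.flatten_cons, ← List.map_flatten]
    exact hC

theorem Inv.closeP (P : Par) {S F : List ℕ} (H : Inv P.h S F) (n : ℕ)
    (r : List ℕ) (h0 : zrel P.g (P.h % 2) P.z1 P.z3 = true)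
    (h1 : VW (TZ P.g (P.h % 2) P.z0 P.z1 P.z2 P.z3) r = true) (h2 : r.length = 2 * n - 1)
    (h3 : ckc (P.g == (P.h % 2 == 1)) P.z0 P.z1 P.z2 P.z3 S r = true) : EM (n :: F) := by
  obtain ⟨ps, hv, hlen, hp⟩ := H
  exact finish_aux P h0 hv hlen (VN_mu P r h0 h1) (by rw [List.length_map, h2])
    (ckc_perm P h3 hp)

theorem InvA.closeP (P : Par) {S F : List ℕ} {e m : ℕ} (H : InvA P.h S e m F)
    (m' : ℕ) (r : List ℕ) (h0 : zrel P.g (P.h % 2) P.z1 P.z3 = true)
    (he : zok (P.g == (P.h % 2 == 1)) P.z0 P.z1 P.z2 P.z3 e = true)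
    (h1 : VW (TZ P.g (P.h % 2) P.z0 P.z1 P.z2 P.z3)
      (r ++ [ze (P.g == (P.h % 2 == 1)) P.z0 P.z1 P.z2 P.z3 e]) = true)
    (h2 : r.length = 2 * m')
    (h3 : ckc (P.g == (P.h % 2 == 1)) P.z0 P.z1 P.z2 P.z3 S r = true) :
    EM ((m + m') :: F) := by
  obtain ⟨c, ps, hv, hlen, hc, hcl, hp⟩ := H
  have hA : VN P.k (r.map P.muP ++ P.nuP (sh P.h e) :: c.map P.nuP) := by
    apply VN_glue
    · have h4 := VN_mu P _ h0 h1
      rw [List.map_append, List.map_cons, List.map_nil] at h4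
      have he' := mu_ze P (c := e) he
      rw [he'] at h4
      exact h4
    · have h5 := VN_nu P _ h0 hc
      rw [List.map_cons] at h5
      exact h5
  have hC := ckc_perm P h3 hp
  rw [List.map_append, List.map_cons, ← List.append_assoc] at hC
  refine finish_aux P h0 hv hlen hA ?_ hC
  simp only [List.length_append, List.length_map, List.length_cons]
  omega

end Pool.Agent.Lib.MP_3c4a39_co
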