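import Mathlib
import Pool.Agent.Lib.MP_3c4a39_co.Defs

/-!
Graph level part of the classification of edge-magic linear forests:
definitions, passage from the list form `EM` to graphs, isolated vertices,
permutation invariance, non-existence for an even number of edges `K₂`.
-/

namespace Pool.Agent.Lib.MP_3c4a39_co

/-- An edge-magic labelling of a finite simple graph with `p` vertices and `q` edges:
a bijection `f` from vertices and edges onto `[1, p+q]` with
`f u + f uv + f v = k` for all edges `uv`. -/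
def IsEdgeMagic {V : Type*} (G : SimpleGraph V) : Prop :=
  ∃ (f : V ⊕ G.edgeSet → ℕ) (k : ℕ),
    Set.BijOn f Set.univ (Set.Icc 1 (Nat.card V + Nat.card G.edgeSet)) ∧
    ∀ (u v : V) (h : G.Adj u v),
      f (Sum.inl u) + f (Sum.inr ⟨s(u, v), h⟩) + f (Sum.inl v) = k

/-- The disjoint union of the paths `P_{l₀}, P_{l₁}, …`: the `i`-th component has the vertices
`(i,0), …, (i, lᵢ - 1)`, consecutive ones being adjacent. -/
def linForest (l : List ℕ) : SimpleGraph ((i : Fin l.length) × Fin (l.get i)) where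
  Adj x y := x.1 = y.1 ∧ ((x.2 : ℕ) + 1 = y.2 ∨ (y.2 : ℕ) + 1 = x.2)
  symm := ⟨fun _ _ h => ⟨h.1.symm, h.2.symm⟩⟩
  loopless := ⟨fun x h => by rcases h.2 with h | h <;> omega⟩

lemma sig_ext_iff {l : List ℕ} {g : ℕ → ℕ} (x y : (i : Fin l.length) × Fin (g (l.get i))) :
    x = y ↔ x.1 = y.1 ∧ (x.2 : ℕ) = y.2 := by
  obtain ⟨i, a⟩ := x
  obtain ⟨j, b⟩ := y
  constructor
  · intro h
    cases h
    exact ⟨rfl, rfl⟩
  · rintro ⟨h1, h2⟩
    dsimp at h1 h2
    subst h1
    have : a = b := Fin.ext h2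
    rw [this]

/-- positions in the lists `[v₁,e₁,v₂,…,v_n]` -/
abbrev Pos (l : List ℕ) := (i : Fin l.length) × Fin (2 * l.get i - 1)

/-- vertices and edges of `linForest l` from positions -/
noncomputable def psi (l : List ℕ) (x : Pos l) :
    ((i : Fin l.length) × Fin (l.get i)) ⊕ (linForest l).edgeSet :=
  if h : (x.2 : ℕ) % 2 = 0 then
    Sum.inl ⟨x.1, ⟨(x.2 : ℕ) / 2, by have := x.2.isLt; omega⟩⟩
  else
    Sum.inr ⟨s(⟨x.1, ⟨(x.2 : ℕ) / 2, by have := x.2.isLt; omega⟩⟩,
      ⟨x.1, ⟨(x.2 : ℕ) / 2 + 1, by have := x.2.isLt; omega⟩⟩), by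
        rw [SimpleGraph.mem_edgeSet]
        exact ⟨rfl, Or.inl rfl⟩⟩

lemma psi_vertex (l : List ℕ) (i : Fin l.length) (j : ℕ) (hj : j < l.get i) :
    psi l ⟨i, ⟨2 * j, by omega⟩⟩ = Sum.inl ⟨i, ⟨j, hj⟩⟩ := by
  unfold psi
  rw [dif_pos (by simp)]
  congr 1
  rw [sig_ext_iff (g := id)]
  simp

lemma psi_edge (l : List ℕ) (i : Fin l.length) (j : ℕ) (hj : j + 1 < l.get i)
    (h : (linForest l).Adj ⟨i, ⟨j, by omega⟩⟩ ⟨i, ⟨j + 1, hj⟩⟩) :
    psi l ⟨i, ⟨2 * j + 1, by omega⟩⟩ =
      Sum.inr ⟨s(⟨i, ⟨j, by omega⟩⟩, ⟨i, ⟨j + 1, hj⟩⟩), h⟩ := by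
  unfold psi
  rw [dif_neg (by simp)]
  congr 1
  apply Subtype.ext
  have h1 : (2 * j + 1) / 2 = j := by omega
  simp [h1]

lemma psi_injective (l : List ℕ) : Function.Injective (psi l) := by
  intro x y hxy
  obtain ⟨i, a⟩ := x
  obtain ⟨i', b⟩ := y
  rw [sig_ext_iff (g := fun n => 2 * n - 1)]
  dsimp only
  unfold psi at hxy
  dsimp only at hxy
  by_cases ha : (a : ℕ) % 2 = 0 <;> by_cases hb : (b : ℕ) % 2 = 0
  · rw [dif_pos ha, dif_pos hb] at hxy
    have := Sum.inl.inj hxy
    rw [sig_ext_iff (g := id)] at this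
    obtain ⟨h1, h2⟩ := this
    dsimp at h1 h2
    exact ⟨h1, by omega⟩
  · rw [dif_pos ha, dif_neg hb] at hxy
    exact absurd hxy (by simp)
  · rw [dif_neg ha, dif_pos hb] at hxy
    exact absurd hxy (by simp)
  · rw [dif_neg ha, dif_neg hb] at hxy
    have h0 := congrArg Subtype.val (Sum.inr.inj hxy)
    dsimp only at h0
    rw [Sym2.eq_iff] at h0
    rcases h0 with ⟨h1, h2⟩ | ⟨h1, h2⟩
    · rw [sig_ext_iff (g := id)] at h1 h2
      obtain ⟨h1, h3⟩ := h1
      obtain ⟨_, h4⟩ := h2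
      dsimp at h1 h3 h4
      exact ⟨h1, by omega⟩
    · rw [sig_ext_iff (g := id)] at h1 h2
      obtain ⟨h1, h3⟩ := h1
      obtain ⟨_, h4⟩ := h2
      dsimp at h1 h3 h4
      exact ⟨h1, by omega⟩

lemma psi_surjective (l : List ℕ) : Function.Surjective (psi l) := by
  rintro (⟨i, a⟩ | ⟨e, he⟩)
  · exact ⟨⟨i, ⟨2 * a, by have := a.isLt; omega⟩⟩, by
      rw [psi_vertex l i a a.isLt]⟩
  · induction e using Sym2.ind with
    | _ u v =>
      obtain ⟨i, a⟩ := u
      obtain ⟨i', b⟩ := v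
      have he' : (linForest l).Adj ⟨i, a⟩ ⟨i', b⟩ := he
      have h1 : i = i' := he'.1
      subst h1
      rcases he'.2 with h2 | h2
      · dsimp at h2
        have hb : (a : ℕ) + 1 < l.get i := by have := b.isLt; omega
        have hb' : b = ⟨(a : ℕ) + 1, hb⟩ := Fin.ext h2.symm
        subst hb'
        exact ⟨⟨i, ⟨2 * a + 1, by omega⟩⟩, by rw [psi_edge l i a hb he']⟩
      · dsimp at h2
        have hb : (b : ℕ) + 1 < l.get i := by have := a.isLt; omega
        have hb' : a = ⟨(b : ℕ) + 1, hb⟩ := Fin.ext h2.symm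
        subst hb'
        refine ⟨⟨i, ⟨2 * b + 1, by omega⟩⟩, ?_⟩
        rw [psi_edge l i b hb he'.symm]
        congr 1
        apply Subtype.ext
        exact Sym2.eq_swap

/-- The equivalence between positions and vertices/edges. -/
noncomputable def psiEquiv (l : List ℕ) :
    Pos l ≃ ((i : Fin l.length) × Fin (l.get i)) ⊕ (linForest l).edgeSet :=
  Equiv.ofBijective (psi l) ⟨psi_injective l, psi_surjective l⟩

instance (l : List ℕ) : Finite (linForest l).edgeSet :=
  Finite.of_surjective (fun x : Pos l => psi l x) (psi_surjective l) |>.of_injective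
    (β := ((i : Fin l.length) × Fin (l.get i)) ⊕ (linForest l).edgeSet) _ Sum.inr_injective

lemma card_pos_eq (l : List ℕ) :
    Nat.card (Pos l) = Nat.card ((i : Fin l.length) × Fin (l.get i)) +
      Nat.card (linForest l).edgeSet := by
  rw [Nat.card_congr (psiEquiv l), Nat.card_sum]

lemma sum_map_get (l : List ℕ) (g : ℕ → ℕ) :
    ∑ i : Fin l.length, g (l.get i) = (l.map g).sum := by
  rw [← List.sum_ofFn]
  congr 1
  apply List.ext_get
  · simp
  · intro n h1 h2
    simp

lemma card_pos (l : List ℕ) : Nat.card (Pos l) = (l.map (fun n => 2 * n - 1)).sum := by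
  rw [Nat.card_eq_fintype_card, Fintype.card_sigma]
  simp only [Fintype.card_fin]
  exact sum_map_get l (fun n => 2 * n - 1)


lemma VN_get {k : ℤ} : ∀ (j : ℕ) (p : List ℤ), VN k p → ∀ (h : 2 * j + 2 < p.length),
    p[2 * j] + p[2 * j + 1] + p[2 * j + 2] = k := by
  intro j
  induction j with
  | zero =>
    intro p hp h
    match p, hp, h with
    | a :: e :: b :: l, hp, h => exact hp.1
  | succ j ih =>
    intro p hp h
    match p, hp, h with
    | a :: e :: b :: l, hp, h =>
      have h' : 2 * j + 2 < (b :: l).length := by simp at h ⊢; omega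
      have := ih (b :: l) hp.2 h'
      simpa [Nat.mul_succ] using this

/-- (a): from the list form to the graph. -/
theorem EM.isEdgeMagic {F : List ℕ} (h : EM F) : IsEdgeMagic (linForest F) := by
  obtain ⟨ps, k, hVN, hlen, hperm⟩ := h
  have hL : ps.length = F.length := by
    have := congrArg List.length hlen
    simpa using this
  have hget : ∀ (i : ℕ) (h1 : i < ps.length) (h2 : i < F.length),
      (ps[i]).length = 2 * F[i] - 1 := by
    intro i h1 h2
    have h3 : (ps.map List.length)[i]'(by simpa using h1) =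
        (F.map (fun n => 2 * n - 1))[i]'(by simpa using h2) := by
      congr 1
    simpa using h3
  set N := (F.map (fun n => 2 * n - 1)).sum with hN
  have hnodup : ps.flatten.Nodup := by
    rw [hperm.nodup_iff]
    exact List.Nodup.map (fun a b hab => by exact_mod_cast hab) List.nodup_range
  rw [List.nodup_flatten] at hnodup
  obtain ⟨hnd, hdis⟩ := hnodup
  -- the value function
  have hb : ∀ x : Pos F, (x.2 : ℕ) < (ps[(x.1 : ℕ)]'(by rw [hL]; exact x.1.isLt)).length := by
    intro x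
    rw [hget _ _ x.1.isLt]
    have := x.2.isLt
    simpa using this
  let g : Pos F → ℤ := fun x => (ps[(x.1 : ℕ)]'(by rw [hL]; exact x.1.isLt))[(x.2 : ℕ)]'(hb x)
  have hg_mem : ∀ x, 0 ≤ g x ∧ g x < N := by
    intro x
    have h1 : g x ∈ ps.flatten := by
      rw [List.mem_flatten]
      exact ⟨_, List.getElem_mem _, List.getElem_mem _⟩
    rw [hperm.mem_iff, List.mem_map] at h1
    obtain ⟨m, hm, hm2⟩ := h1
    rw [List.mem_range] at hm
    omega
  have hg_inj : Function.Injective g := by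
    rintro ⟨i, a⟩ ⟨i', b⟩ hxy
    rw [sig_ext_iff (g := fun n => 2 * n - 1)]
    dsimp only
    have hi : i = i' := by
      by_contra hne
      have hp := List.pairwise_iff_getElem.mp hdis
      have hne' : (i : ℕ) ≠ i' := fun h => hne (Fin.ext h)
      have hi1 : (i : ℕ) < ps.length := by rw [hL]; exact i.isLt
      have hi2 : (i' : ℕ) < ps.length := by rw [hL]; exact i'.isLt
      have e1 : g ⟨i, a⟩ ∈ ps[(i : ℕ)] := List.getElem_mem _
      have e2 : g ⟨i', b⟩ ∈ ps[(i' : ℕ)] := List.getElem_mem _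
      rcases Nat.lt_or_gt_of_ne hne' with hlt | hgt
      · exact hp i i' hi1 hi2 hlt e1 (hxy ▸ e2)
      · exact hp i' i hi2 hi1 hgt e2 (hxy ▸ e1)
    subst hi
    refine ⟨rfl, ?_⟩
    have hi1 : (i : ℕ) < ps.length := by rw [hL]; exact i.isLt
    have h2 := hnd _ (List.getElem_mem hi1)
    exact (List.Nodup.getElem_inj_iff h2).mp hxy
  have hg_surj : ∀ m : ℕ, m < N → ∃ x, g x = m := by
    intro m hm
    have h1 : (m : ℤ) ∈ ps.flatten := by
      rw [hperm.mem_iff, List.mem_map]
      exact ⟨m, List.mem_range.mpr hm, rfl⟩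
    rw [List.mem_flatten] at h1
    obtain ⟨p, hp, hmp⟩ := h1
    obtain ⟨i, hi, rfl⟩ := List.mem_iff_getElem.mp hp
    obtain ⟨t, ht, htm⟩ := List.mem_iff_getElem.mp hmp
    have hi' : i < F.length := by omega
    refine ⟨⟨⟨i, hi'⟩, ⟨t, ?_⟩⟩, ?_⟩
    · rw [hget i hi hi'] at ht
      simpa using ht
    · exact htm
  have hcard : Nat.card ((i : Fin F.length) × Fin (F.get i)) +
      Nat.card (linForest F).edgeSet = N := by
    rw [← card_pos_eq, card_pos]
  refine ⟨fun x => (g ((psiEquiv F).symm x) + 1).toNat, (k + 3).toNat, ?_, ?_⟩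
  · rw [hcard]
    refine ⟨?_, ?_, ?_⟩
    · intro x _
      have := hg_mem ((psiEquiv F).symm x)
      simp only [Set.mem_Icc]
      omega
    · intro x _ y _ hxy
      have h1 := hg_mem ((psiEquiv F).symm x)
      have h2 := hg_mem ((psiEquiv F).symm y)
      dsimp only at hxy
      have h3 : g ((psiEquiv F).symm x) = g ((psiEquiv F).symm y) := by omega
      exact (psiEquiv F).symm.injective (hg_inj h3)
    · intro m hm
      simp only [Set.mem_Icc] at hm
      obtain ⟨x, hx⟩ := hg_surj (m - 1) (by omega)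
      refine ⟨psiEquiv F x, Set.mem_univ _, ?_⟩
      dsimp only
      rw [Equiv.symm_apply_apply, hx]
      omega
  · -- the magic property
    have key : ∀ (i : Fin F.length) (j : ℕ) (hj : j + 1 < F.get i)
        (h : (linForest F).Adj ⟨i, ⟨j, by omega⟩⟩ ⟨i, ⟨j + 1, hj⟩⟩),
        (g ((psiEquiv F).symm (Sum.inl ⟨i, ⟨j, by omega⟩⟩)) + 1).toNat +
        (g ((psiEquiv F).symm (Sum.inr ⟨s(⟨i, ⟨j, by omega⟩⟩, ⟨i, ⟨j + 1, hj⟩⟩), h⟩)) + 1).toNat +
        (g ((psiEquiv F).symm (Sum.inl ⟨i, ⟨j + 1, hj⟩⟩)) + 1).toNat = (k + 3).toNat := by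
      intro i j hj h
      have e1 : (psiEquiv F).symm (Sum.inl ⟨i, ⟨j, by omega⟩⟩) = ⟨i, ⟨2 * j, by omega⟩⟩ := by
        rw [Equiv.symm_apply_eq]
        exact (psi_vertex F i j (by omega)).symm
      have e2 : (psiEquiv F).symm (Sum.inl ⟨i, ⟨j + 1, hj⟩⟩) = ⟨i, ⟨2 * j + 2, by omega⟩⟩ := by
        rw [Equiv.symm_apply_eq]
        exact (psi_vertex F i (j + 1) hj).symm
      have e3 : (psiEquiv F).symm (Sum.inr ⟨s(⟨i, ⟨j, by omega⟩⟩, ⟨i, ⟨j + 1, hj⟩⟩), h⟩) =
          ⟨i, ⟨2 * j + 1, by omega⟩⟩ := by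
        rw [Equiv.symm_apply_eq]
        exact (psi_edge F i j hj h).symm
      rw [e1, e2, e3]
      have hi1 : (i : ℕ) < ps.length := by rw [hL]; exact i.isLt
      have hlen' : (ps[(i : ℕ)]).length = 2 * F.get i - 1 := hget _ hi1 i.isLt
      have := VN_get (k := k) j (ps[(i : ℕ)]) (hVN _ (List.getElem_mem hi1))
        (by rw [hlen']; omega)
      have m1 := hg_mem ⟨i, ⟨2 * j, by omega⟩⟩
      have m2 := hg_mem ⟨i, ⟨2 * j + 1, by omega⟩⟩
      have m3 := hg_mem ⟨i, ⟨2 * j + 2, by omega⟩⟩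
      have t : g ⟨i, ⟨2 * j, by omega⟩⟩ + g ⟨i, ⟨2 * j + 1, by omega⟩⟩ +
          g ⟨i, ⟨2 * j + 2, by omega⟩⟩ = k := this
      omega
    rintro ⟨i, a⟩ ⟨i', b⟩ h
    have h1 : i = i' := h.1
    subst h1
    rcases h.2 with h2 | h2
    · dsimp at h2
      have hb : (a : ℕ) + 1 < F.get i := by have := b.isLt; omega
      have hb' : b = ⟨(a : ℕ) + 1, hb⟩ := Fin.ext h2.symm
      subst hb'
      exact key i a hb h
    · dsimp at h2
      have hb : (b : ℕ) + 1 < F.get i := by have := a.isLt; omega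
      have hb' : a = ⟨(b : ℕ) + 1, hb⟩ := Fin.ext h2.symm
      subst hb'
      have hk : (g ((psiEquiv F).symm (Sum.inl ⟨i, b⟩)) + 1).toNat +
          (g ((psiEquiv F).symm (Sum.inr ⟨s(⟨i, b⟩, ⟨i, ⟨(b : ℕ) + 1, hb⟩⟩), h.symm⟩)) + 1).toNat +
          (g ((psiEquiv F).symm (Sum.inl ⟨i, ⟨(b : ℕ) + 1, hb⟩⟩)) + 1).toNat = (k + 3).toNat :=
        key i b hb h.symm
      have hs : (⟨s(⟨i, ⟨(b : ℕ) + 1, hb⟩⟩, ⟨i, b⟩), h⟩ : (linForest F).edgeSet) =
          ⟨s(⟨i, b⟩, ⟨i, ⟨(b : ℕ) + 1, hb⟩⟩), h.symm⟩ := Subtype.ext Sym2.eq_swap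
      rw [hs]
      beta_reduce
      omega

/-- (b) -/
theorem exists_perm_of_map_perm {α β : Type*} (f : α → β) :
    ∀ {m m' : List β}, m.Perm m' → ∀ l : List α, l.map f = m → ∃ l', l.Perm l' ∧ l'.map f = m' := by
  intro m m' h
  induction h with
  | nil => intro l hl; exact ⟨l, List.Perm.refl _, hl⟩
  | cons x _ ih =>
    intro l hl
    cases l with
    | nil => simp at hl
    | cons y l =>
      simp only [List.map_cons, List.cons.injEq] at hl
      obtain ⟨l', h1, h2⟩ := ih l hl.2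
      exact ⟨y :: l', h1.cons y, by simp [h2, hl.1]⟩
  | swap x y l0 =>
    intro l hl
    match l, hl with
    | a :: b :: l, hl =>
      simp only [List.map_cons, List.cons.injEq] at hl
      exact ⟨b :: a :: l, List.Perm.swap _ _ _, by simp [hl.1, hl.2.1, hl.2.2]⟩
  | trans _ _ ih1 ih2 =>
    intro l hl
    obtain ⟨l1, h1, h2⟩ := ih1 l hl
    obtain ⟨l2, h3, h4⟩ := ih2 l1 h2
    exact ⟨l2, h1.trans h3, h4⟩

theorem EM.perm {F F' : List ℕ} (hF : F.Perm F') (h : EM F) : EM F' := by
  obtain ⟨ps, k, hVN, hlen, hperm⟩ := h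
  obtain ⟨ps', h1, h2⟩ := exists_perm_of_map_perm List.length
    (hF.map (fun n => 2 * n - 1)) ps hlen
  refine ⟨ps', k, fun p hp => hVN p (h1.mem_iff.mpr hp), h2, ?_⟩
  have h3 : (F.map (fun n => 2 * n - 1)).sum = (F'.map (fun n => 2 * n - 1)).sum :=
    (hF.map _).sum_eq
  rw [← h3]
  exact (h1.symm.flatten).trans hperm

/-- (c) -/
theorem EM.cons_one {F : List ℕ} (h : EM F) : EM (1 :: F) := by
  obtain ⟨ps, k, hVN, hlen, hperm⟩ := h
  refine ⟨[(((F.map (fun n => 2 * n - 1)).sum : ℕ) : ℤ)] :: ps, k, ?_, ?_, ?_⟩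
  · intro p hp
    rw [List.mem_cons] at hp
    rcases hp with rfl | hp
    · trivial
    · exact hVN p hp
  · simp [hlen]
  · have e : ((1 :: F).map (fun n => 2 * n - 1)).sum = (F.map (fun n => 2 * n - 1)).sum + 1 := by
      simp [add_comm]
    rw [e, List.range_succ, List.map_append, List.flatten_cons]
    refine List.Perm.trans ?_ (List.perm_append_comm)
    simp only [List.map_cons, List.map_nil, List.singleton_append]
    exact hperm.cons _

theorem EM.replicate_one {F : List ℕ} (c : ℕ) (h : EM F) : EM (List.replicate c 1 ++ F) := by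
  induction c with
  | zero => simpa using h
  | succ c ih => exact ih.cons_one

theorem EM.nil : EM [] := ⟨[], 0, by simp, by simp, by simp⟩

/-- `IsEdgeMagic` is invariant under graph isomorphism. -/
theorem IsEdgeMagic.of_iso {V W : Type*} {G : SimpleGraph V} {H : SimpleGraph W} (φ : G ≃g H)
    (h : IsEdgeMagic H) : IsEdgeMagic G := by
  obtain ⟨f, k, hf, hk⟩ := h
  let e : V ⊕ G.edgeSet ≃ W ⊕ H.edgeSet := Equiv.sumCongr φ.toEquiv φ.mapEdgeSet
  refine ⟨fun x => f (e x), k, ?_, ?_⟩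
  · have hc : Nat.card V + Nat.card G.edgeSet = Nat.card W + Nat.card H.edgeSet := by
      rw [Nat.card_congr φ.toEquiv, Nat.card_congr φ.mapEdgeSet]
    rw [hc]
    refine ⟨?_, ?_, ?_⟩
    · intro x _
      exact hf.1 (Set.mem_univ (e x))
    · intro x _ y _ hxy
      exact e.injective (hf.2.1 (Set.mem_univ _) (Set.mem_univ _) hxy)
    · intro m hm
      obtain ⟨y, _, hy⟩ := hf.2.2 hm
      exact ⟨e.symm y, Set.mem_univ _, by simpa using hy⟩
  · intro u v h
    have := hk (φ u) (φ v) (φ.map_adj_iff.mpr h)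
    exact this

theorem isEdgeMagic_congr {V W : Type*} {G : SimpleGraph V} {H : SimpleGraph W} (φ : G ≃g H) :
    IsEdgeMagic G ↔ IsEdgeMagic H :=
  ⟨fun h => IsEdgeMagic.of_iso φ.symm h, fun h => IsEdgeMagic.of_iso φ h⟩

/-- (d): an even positive number of disjoint edges is not edge-magic. -/
theorem not_isEdgeMagic_replicate_two (F : List ℕ) (hF : F ≠ []) (hev : Even F.length)
    (h2 : ∀ n ∈ F, n = 2) : ¬ IsEdgeMagic (linForest F) := by
  rintro ⟨f, k, hf, hk⟩
  have hcard : Nat.card ((i : Fin F.length) × Fin (F.get i)) +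
      Nat.card (linForest F).edgeSet = 3 * F.length := by
    rw [← card_pos_eq, card_pos]
    have : F = List.replicate F.length 2 := List.eq_replicate_of_mem h2
    rw [this]
    simp [mul_comm]
  rw [hcard] at hf
  have hget : ∀ i : Fin F.length, F.get i = 2 := fun i => h2 _ (List.get_mem _ _)
  have : Fintype (linForest F).edgeSet := Fintype.ofFinite _
  -- total sum, computed in two ways
  have hs1 : ∑ x : ((i : Fin F.length) × Fin (F.get i)) ⊕ (linForest F).edgeSet, f x =
      ∑ m ∈ Finset.Icc 1 (3 * F.length), m := by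
    have himg : Finset.image f Finset.univ = Finset.Icc 1 (3 * F.length) := by
      ext m
      rw [Finset.mem_image, Finset.mem_Icc]
      constructor
      · rintro ⟨x, _, rfl⟩
        exact hf.1 (Set.mem_univ x)
      · intro hm
        obtain ⟨x, _, hx⟩ := hf.2.2 (show m ∈ Set.Icc 1 (3 * F.length) from hm)
        exact ⟨x, Finset.mem_univ _, hx⟩
    rw [← himg, Finset.sum_image]
    intro x _ y _ hxy
    exact hf.2.1 (Set.mem_univ _) (Set.mem_univ _) hxy
  have hs2 : ∑ x : ((i : Fin F.length) × Fin (F.get i)) ⊕ (linForest F).edgeSet, f x =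
      F.length * k := by
    rw [← Equiv.sum_comp (psiEquiv F) f, Fintype.sum_sigma]
    have : ∀ i : Fin F.length, ∑ t : Fin (2 * F.get i - 1), f (psiEquiv F ⟨i, t⟩) = k := by
      intro i
      have hi := hget i
      have hadj : (linForest F).Adj ⟨i, ⟨0, by omega⟩⟩ ⟨i, ⟨0 + 1, by omega⟩⟩ :=
        ⟨rfl, Or.inl rfl⟩
      have h0 := hk _ _ hadj
      have h3 : 2 * F.get i - 1 = 3 := by omega
      have e0 : psiEquiv F ⟨i, ⟨0, by omega⟩⟩ = Sum.inl ⟨i, ⟨0, by omega⟩⟩ :=
        psi_vertex F i 0 (by omega)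
      have e1 : psiEquiv F ⟨i, ⟨1, by omega⟩⟩ =
          Sum.inr ⟨s(⟨i, ⟨0, by omega⟩⟩, ⟨i, ⟨0 + 1, by omega⟩⟩), hadj⟩ :=
        psi_edge F i 0 (by omega) hadj
      have e2 : psiEquiv F ⟨i, ⟨2, by omega⟩⟩ = Sum.inl ⟨i, ⟨0 + 1, by omega⟩⟩ :=
        psi_vertex F i 1 (by omega)
      rw [← h0, ← e0, ← e1, ← e2]
      have hsum : ∀ (n : ℕ) (hn : n = 3) (G : Fin n → ℕ),
          ∑ t : Fin n, G t = G ⟨0, by omega⟩ + G ⟨1, by omega⟩ + G ⟨2, by omega⟩ := by
        intro n hn G
        subst hn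
        rw [Fin.sum_univ_three]
        rfl
      exact hsum _ h3 (fun t => f (psiEquiv F ⟨i, t⟩))
    rw [Finset.sum_congr rfl (fun i _ => this i)]
    simp
  rw [hs1] at hs2
  have hs3 : (∑ m ∈ Finset.Icc 1 (3 * F.length), m) * 2 = 3 * F.length * (3 * F.length + 1) := by
    have h := Finset.sum_range_id_mul_two (3 * F.length + 1)
    have h' : ∑ m ∈ Finset.range (3 * F.length + 1), m = ∑ m ∈ Finset.Icc 1 (3 * F.length), m := by
      rw [Finset.range_eq_Ico, Finset.sum_eq_sum_Ico_succ_bot (by omega)]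
      simp
      rfl
    rw [← h', h]
    simp [mul_comm]
  rw [hs2] at hs3
  have hpos : 0 < F.length := List.length_pos_of_ne_nil hF
  have hs4 : k * 2 = 3 * (3 * F.length + 1) := by
    have : F.length * (k * 2) = F.length * (3 * (3 * F.length + 1)) := by
      rw [← mul_assoc, hs3]; ring
    exact Nat.eq_of_mul_eq_mul_left hpos this
  obtain ⟨r, hr⟩ := hev
  omega

/-- (e): the classification, from the three constructions. -/
theorem classification_aux
    (key1 : ∀ F : List ℕ, (∀ n ∈ F, 2 ≤ n) → (∃ n ∈ F, 3 ≤ n) → EM F)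
    (key2 : ∀ m, Odd m → EM (List.replicate m 2))
    (key3 : ∀ m, Even m → EM (1 :: List.replicate m 2))
    (F : List ℕ) (hF : F ≠ []) (hpos : ∀ n ∈ F, 1 ≤ n) :
    IsEdgeMagic (linForest F) ↔ ¬ (Even F.length ∧ ∀ n ∈ F, n = 2) := by
  constructor
  · rintro h ⟨h1, h2⟩
    exact not_isEdgeMagic_replicate_two F hF h1 h2 h
  · intro hne
    apply EM.isEdgeMagic
    -- split off the isolated vertices
    set A := F.filter (fun n => n = 1) with hA
    set B := F.filter (fun n => ¬ n = 1) with hB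
    have hperm : (A ++ B).Perm F := by
      have := List.filter_append_perm (fun n => decide (n = 1)) F
      simpa [hA, hB] using this
    have hA1 : A = List.replicate A.length 1 := by
      apply List.eq_replicate_of_mem
      intro n hn
      rw [hA, List.mem_filter] at hn
      simpa using hn.2
    have hB1 : ∀ n ∈ B, 2 ≤ n := by
      intro n hn
      rw [hB, List.mem_filter] at hn
      have h1 := hpos n hn.1
      have h2 : n ≠ 1 := by simpa using hn.2
      omega
    refine EM.perm hperm ?_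
    rw [hA1]
    by_cases h3 : ∃ n ∈ B, 3 ≤ n
    · exact EM.replicate_one _ (key1 B hB1 h3)
    · push Not at h3
      have hB2 : B = List.replicate B.length 2 := by
        apply List.eq_replicate_of_mem
        intro n hn
        have := hB1 n hn
        have := h3 n hn
        omega
      rw [hB2]
      rcases Nat.even_or_odd B.length with he | ho
      · rcases Nat.eq_zero_or_pos A.length with h0 | h0
        · exfalso
          apply hne
          have hA0 : A = [] := List.length_eq_zero_iff.mp h0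
          rw [hA0, List.nil_append] at hperm
          constructor
          · rw [← hperm.length_eq]; exact he
          · intro n hn
            rw [← hperm.mem_iff, hB2] at hn
            exact List.eq_of_mem_replicate hn
        · obtain ⟨c, hc⟩ : ∃ c, A.length = c + 1 := ⟨A.length - 1, by omega⟩
          rw [hc, List.replicate_succ']
          rw [List.append_assoc]
          exact EM.replicate_one _ (key3 _ he)
      · exact EM.replicate_one _ (key2 _ ho)

end Pool.Agent.Lib.MP_3c4a39_co
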