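import Pool.Agent.Lib.MP_3c4a39_co.Walk

namespace Pool.Agent.Lib.MP_3c4a39_co

/-- a forest with `a` components `P₃`, `b` components `P₄` and `m` components `P₂` -/
def R (a b m : ℕ) : List ℕ :=
  List.replicate a 3 ++ (List.replicate b 4 ++ List.replicate m 2)

theorem R_perm (l : List ℕ) (hl : ∀ x ∈ l, x = 2 ∨ x = 3 ∨ x = 4) (a b m : ℕ) :
    (l ++ R a b m).Perm (R (a + l.count 3) (b + l.count 4) (m + l.count 2)) := by
  rw [List.perm_iff_count]
  intro x
  simp only [R, List.count_append, List.count_replicate, beq_iff_eq]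
  by_cases h3 : 3 = x
  · subst h3; simp; ring
  by_cases h4 : 4 = x
  · subst h4; simp; ring
  by_cases h2 : 2 = x
  · subst h2; simp; ring
  · rw [if_neg h3, if_neg h4, if_neg h2, if_neg h3, if_neg h4, if_neg h2]
    have : List.count x l = 0 := by
      rw [List.count_eq_zero]
      intro hx
      rcases hl x hx with h | h | h <;> omega
    omega

theorem add2 {h : ℕ} {F : List ℕ} (H : Inv h [] F) : Inv (h + 1) [] (2 :: F) :=
  H.exact 2 [11, 10, 12] 1 [] (by decide +kernel) rfl (by decide +kernel)

theorem add333 {h : ℕ} {F : List ℕ} (H : Inv h [] F) : Inv (h + 5) [] ([3, 3, 3] ++ F) :=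
  chain_inv ch333 H (by decide +kernel)

theorem add444 {h : ℕ} {F : List ℕ} (H : Inv h [] F) : Inv (h + 7) [] ([4, 4, 4] ++ F) :=
  chain_inv ch444 H (by decide +kernel)

theorem pre (m A B : ℕ) : Inv (m + 5 * A + 7 * B) [] (R (3 * A) (3 * B) m) := by
  have h0 : ∀ m, Inv m [] (R 0 0 m) := by
    intro m
    induction m with
    | zero => exact Inv.zero
    | succ m ih => exact add2 ih
  have h1 : ∀ A, Inv (m + 5 * A) [] (R (3 * A) 0 m) := by
    intro A
    induction A with
    | zero => exact h0 m
    | succ A ih => exact (add333 ih).perm (R_perm [3, 3, 3] (by simp) (3 * A) 0 m)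
  induction B with
  | zero => exact h1 A
  | succ B ih => exact (add444 ih).perm (R_perm [4, 4, 4] (by simp) (3 * A) (3 * B) m)

/-- chain into a profile -/
theorem chainR (c : List Stp) (mm : Bool) (i m A B : ℕ) (h1 : chainOK [] c = true)
    (h2 : chainS [] c = famM mm i) (hl : ∀ x ∈ lenN c, x = 2 ∨ x = 3 ∨ x = 4) :
    ∃ h, Inv h (fam i)
      (R (3 * A + (lenN c).count 3) (3 * B + (lenN c).count 4) (m + (lenN c).count 2)) := by
  have H := chain_inv c (pre m A B) h1
  rw [h2] at H
  exact ⟨_, (unmirror H).perm (R_perm _ hl _ _ _)⟩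

theorem reach (a b m : ℕ) : ∃ h i, i < 12 ∧ Inv h (fam i) (R a b m) := by
  have ha : a = 3 * (a / 3) ∨ a = 3 * (a / 3) + 1 ∨ a = 3 * (a / 3) + 2 := by omega
  have hb : b = 3 * (b / 3) ∨ b = 3 * (b / 3) + 1 ∨ b = 3 * (b / 3) + 2 := by omega
  generalize a / 3 = A at ha
  generalize b / 3 = B at hb
  rcases ha with rfl | rfl | rfl <;> rcases hb with rfl | rfl | rfl
  · exact ⟨_, 0, by norm_num, pre m A B⟩
  · obtain ⟨h, H⟩ := chainR ch4 true 11 m A B (by decide +kernel) (by decide +kernel)
      (by decide +kernel)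
    exact ⟨h, 11, by norm_num, H⟩
  · obtain ⟨h, H⟩ := chainR ch44 false 7 m A B (by decide +kernel) (by decide +kernel)
      (by decide +kernel)
    exact ⟨h, 7, by norm_num, H⟩
  · obtain ⟨h, H⟩ := chainR ch3 true 3 m A B (by decide +kernel) (by decide +kernel)
      (by decide +kernel)
    exact ⟨h, 3, by norm_num, H⟩
  · obtain ⟨h, H⟩ := chainR ch34 false 8 m A B (by decide +kernel) (by decide +kernel)
      (by decide +kernel)
    exact ⟨h, 8, by norm_num, H⟩
  · obtain ⟨h, H⟩ := chainR ch344 true 4 m A B (by decide +kernel) (by decide +kernel)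
      (by decide +kernel)
    exact ⟨h, 4, by norm_num, H⟩
  · obtain ⟨h, H⟩ := chainR ch33 true 4 m A B (by decide +kernel) (by decide +kernel)
      (by decide +kernel)
    exact ⟨h, 4, by norm_num, H⟩
  · obtain ⟨h, H⟩ := chainR ch334 true 3 m A B (by decide +kernel) (by decide +kernel)
      (by decide +kernel)
    exact ⟨h, 3, by norm_num, H⟩
  · obtain ⟨h, H⟩ := chainR ch3344 false 0 m A B (by decide +kernel) (by decide +kernel)
      (by decide +kernel)
    exact ⟨h, 0, by norm_num, H⟩

/-- closing group in terms of `R` -/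
theorem groupR (cc : List Stp) (cd : Cl) (p m A B : ℕ) (hp : (m + 5 * A + 7 * B) % 2 = p)
    (h1 : chainOK [] cc = true)
    (h2 : cd.ok (chainS [] cc) ((p + lenS cc) % 2) = true)
    (hl : ∀ x ∈ cd.n :: lenN cc, x = 2 ∨ x = 3 ∨ x = 4) :
    EM (R (3 * A + (cd.n :: lenN cc).count 3) (3 * B + (cd.n :: lenN cc).count 4)
      (m + (cd.n :: lenN cc).count 2)) :=
  (group cc cd p (pre m A B) hp h1 h2).perm (R_perm (cd.n :: lenN cc) hl _ _ _)

theorem EM33 : EM [3, 3] :=
  ⟨[[0, 6, 8, 1, 5], [2, 9, 3, 4, 7]], 14, by simp [VN], rfl, by decide⟩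

theorem small (a b m : ℕ) (hab : 1 ≤ a + b) : EM (R a b m) := by
  have ha : a = 3 * (a / 3) ∨ a = 3 * (a / 3) + 1 ∨ a = 3 * (a / 3) + 2 := by omega
  have hb : b = 3 * (b / 3) ∨ b = 3 * (b / 3) + 1 ∨ b = 3 * (b / 3) + 2 := by omega
  generalize a / 3 = A at ha
  generalize b / 3 = B at hb
  have hp : (m + 5 * A + 7 * B) % 2 = 0 ∨ (m + 5 * A + 7 * B) % 2 = 1 := by omega
  rcases ha with rfl | rfl | rfl <;> rcases hb with rfl | rfl | rfl
  · -- (0,0)
    rcases A with _ | A
    · rcases B with _ | B
      · simp at hab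
      · have hp' : (m + 5 * 0 + 7 * B) % 2 = 0 ∨ (m + 5 * 0 + 7 * B) % 2 = 1 := by omega
        rcases hp' with hp' | hp'
        · exact groupR cc444_0 cd444_0 0 m 0 B hp' (by decide +kernel) (by decide +kernel)
            (by decide +kernel)
        · exact groupR cc444_1 cd444_1 1 m 0 B hp' (by decide +kernel) (by decide +kernel)
            (by decide +kernel)
    · have hp' : (m + 5 * A + 7 * B) % 2 = 0 ∨ (m + 5 * A + 7 * B) % 2 = 1 := by omega
      rcases hp' with hp' | hp'
      · exact groupR cc333_0 cd333_0 0 m A B hp' (by decide +kernel) (by decide +kernel)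
          (by decide +kernel)
      · exact groupR cc333_1 cd333_1 1 m A B hp' (by decide +kernel) (by decide +kernel)
          (by decide +kernel)
  · -- (0,1)
    exact (close (i := 0) (by norm_num) (pre m A B) 4 (Or.inr (by decide))).perm
      (R_perm [4] (by simp) (3 * A) (3 * B) m)
  · -- (0,2)
    rcases hp with hp | hp
    · exact groupR cc44_0 cd44_0 0 m A B hp (by decide +kernel) (by decide +kernel)
        (by decide +kernel)
    · exact groupR cc44_1 cd44_1 1 m A B hp (by decide +kernel) (by decide +kernel)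
        (by decide +kernel)
  · -- (1,0)
    exact (close (i := 0) (by norm_num) (pre m A B) 3 (Or.inr (by decide))).perm
      (R_perm [3] (by simp) (3 * A) (3 * B) m)
  · -- (1,1)
    rcases hp with hp | hp
    · exact groupR cc34_0 cd34_0 0 m A B hp (by decide +kernel) (by decide +kernel)
        (by decide +kernel)
    · exact groupR cc34_1 cd34_1 1 m A B hp (by decide +kernel) (by decide +kernel)
        (by decide +kernel)
  · -- (1,2)
    rcases hp with hp | hp
    · exact groupR cc344_0 cd344_0 0 m A B hp (by decide +kernel) (by decide +kernel)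
        (by decide +kernel)
    · exact groupR cc344_1 cd344_1 1 m A B hp (by decide +kernel) (by decide +kernel)
        (by decide +kernel)
  · -- (2,0)
    rcases hp with hp | hp
    · rcases m with _ | m
      · rcases A with _ | A
        · rcases B with _ | B
          · exact EM33
          · exact groupR cc33444_1 cd33444_1 1 0 0 B (by omega) (by decide +kernel)
              (by decide +kernel) (by decide +kernel)
        · exact groupR cc33333_1 cd33333_1 1 0 A B (by omega) (by decide +kernel)
            (by decide +kernel) (by decide +kernel)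
      · exact groupR cc233_1 cd233_1 1 m A B (by omega) (by decide +kernel)
          (by decide +kernel) (by decide +kernel)
    · exact groupR cc33_1 cd33_1 1 m A B hp (by decide +kernel) (by decide +kernel)
        (by decide +kernel)
  · -- (2,1)
    rcases hp with hp | hp
    · exact groupR cc334_0 cd334_0 0 m A B hp (by decide +kernel) (by decide +kernel)
        (by decide +kernel)
    · exact groupR cc334_1 cd334_1 1 m A B hp (by decide +kernel) (by decide +kernel)
        (by decide +kernel)
  · -- (2,2)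
    rcases hp with hp | hp
    · exact groupR cc3344_0 cd3344_0 0 m A B hp (by decide +kernel) (by decide +kernel)
        (by decide +kernel)
    · exact groupR cc3344_1 cd3344_1 1 m A B hp (by decide +kernel) (by decide +kernel)
        (by decide +kernel)

theorem decomp (F : List ℕ) (h2 : ∀ n ∈ F, 2 ≤ n) :
    ∃ L a b m, (∀ x ∈ L, 5 ≤ x) ∧ F.Perm (L ++ R a b m) := by
  induction F with
  | nil => exact ⟨[], 0, 0, 0, by simp, by simp [R]⟩
  | cons n F ih =>
    obtain ⟨L, a, b, m, hL, hp⟩ := ih (fun x hx => h2 x (List.mem_cons_of_mem _ hx))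
    have hn := h2 n List.mem_cons_self
    have hp' : (n :: F).Perm (n :: (L ++ R a b m)) := hp.cons n
    by_cases h5 : 5 ≤ n
    · refine ⟨n :: L, a, b, m, ?_, hp'⟩
      intro x hx
      rcases List.mem_cons.mp hx with rfl | hx
      · exact h5
      · exact hL x hx
    · have h6 : (n :: (L ++ R a b m)).Perm (L ++ ([n] ++ R a b m)) :=
        (List.perm_middle (a := n) (l₁ := L) (l₂ := R a b m)).symm
      refine ⟨L, a + [n].count 3, b + [n].count 4, m + [n].count 2, hL,
        (hp'.trans h6).trans (List.Perm.append_left _ (R_perm [n] ?_ a b m))⟩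
      intro x hx
      rw [List.mem_singleton] at hx
      omega

theorem key1 (F : List ℕ) (h2 : ∀ n ∈ F, 2 ≤ n) (h3 : ∃ n ∈ F, 3 ≤ n) : EM F := by
  obtain ⟨L, a, b, m, hL, hp⟩ := decomp F h2
  cases L with
  | nil =>
    refine EM.perm hp.symm (small a b m ?_)
    obtain ⟨n, hn, hn3⟩ := h3
    rw [hp.mem_iff] at hn
    simp only [R, List.nil_append, List.mem_append, List.mem_replicate] at hn
    omega
  | cons x L =>
    obtain ⟨h, i, hi, H⟩ := reach a b m
    obtain ⟨h', j, hj, H'⟩ := walk L (fun y hy => hL y (List.mem_cons_of_mem _ hy)) hi H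
    exact EM.perm hp.symm (close hj H' x (Or.inl (hL x List.mem_cons_self)))

theorem Rm (m : ℕ) : R 0 0 m = List.replicate m 2 := rfl

theorem key2 (m : ℕ) (hm : Odd m) : EM (List.replicate m 2) := by
  obtain ⟨k, rfl⟩ := hm
  have H : Inv (2 * k + 5 * 0 + 7 * 0) [] (R 0 0 (2 * k)) := pre (2 * k) 0 0
  exact H.closeCl ⟨false, false, 2, 0, 0, 1, 2, [0, 4, 3]⟩ (by
    have : (2 * k + 5 * 0 + 7 * 0) % 2 = 0 := by omega
    rw [this]
    decide +kernel)

theorem key3 (m : ℕ) (hm : Even m) : EM (1 :: List.replicate m 2) := by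
  obtain ⟨k, rfl⟩ := hm
  have H : Inv (k + k + 5 * 0 + 7 * 0) [] (R 0 0 (k + k)) := pre (k + k) 0 0
  exact H.closeCl ⟨false, false, 0, 0, 0, 1, 1, [3]⟩ (by
    have : (k + k + 5 * 0 + 7 * 0) % 2 = 0 := by omega
    rw [this]
    decide +kernel)

/-- **The classification.** -/
theorem classification (F : List ℕ) (hF : F ≠ []) (hpos : ∀ n ∈ F, 1 ≤ n) :
    IsEdgeMagic (linForest F) ↔ ¬ (Even F.length ∧ ∀ n ∈ F, n = 2) :=
  classification_aux key1 key2 key3 F hF hpos

end Pool.Agent.Lib.MP_3c4a39_co
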