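import Pool.Agent.Lib.MP_3c4a39_co.Finish

namespace Pool.Agent.Lib.MP_3c4a39_co

/-- the twelve profiles -/
def famL : List (List ℕ) := [
  [],
  [14],
  [17],
  [10, 14],
  [10, 12, 13, 14],
  [15, 13, 14],
  [10, 15, 12, 13, 14],
  [10, 15, 11, 17, 13],
  [10, 15, 11, 17, 13, 14],
  [10, 20, 13, 14, 19],
  [10, 20, 12, 13, 18, 14, 19],
  [15, 20, 16, 17, 13, 14, 19]]

def fam (i : ℕ) : List ℕ := famL.getD i []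

/-- profile, possibly mirrored -/
def famM (m : Bool) (i : ℕ) : List ℕ := if m then (fam i).map mir else fam i

/-- exact gadget: reads a path with `n` vertices from profile `i`, ending in profile `t` -/
structure Ex where
  i : ℕ
  n : ℕ
  s : ℕ
  t : ℕ
  m : Bool
  r : List ℕ

def Ex.ok (e : Ex) : Bool :=
  decide (e.t < 12) && VW T e.r && (e.r.length + 1 == 2 * e.n) && ck (fam e.i) e.r e.s (famM e.m e.t)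

def exT : List Ex := [
  ⟨1, 5, 1, 10, false,
    [17, 21, 25, 22, 16, 15, 12, 11, 10]⟩,
  ⟨1, 8, 5, 1, false,
    [20, 13, 19, 18, 25, 17, 21, 22, 30, 27, 16, 15, 12, 11, 10]⟩,
  ⟨2, 5, 3, 1, false,
    [14, 13, 15, 16, 12, 10, 11, 22, 20]⟩,
  ⟨2, 8, 4, 4, false,
    [30, 24, 18, 19, 25, 23, 14, 13, 15, 16, 12, 10, 11, 22, 20]⟩,
  ⟨3, 5, 2, 7, true,
    [19, 13, 20, 12, 21, 25, 17, 11, 15]⟩,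
  ⟨3, 6, 4, 2, false,
    [20, 13, 19, 18, 25, 27, 11, 17, 15, 12, 16]⟩,
  ⟨3, 7, 3, 8, false,
    [25, 13, 24, 18, 30, 22, 21, 12, 20, 16, 17, 11, 15]⟩,
  ⟨3, 8, 5, 3, false,
    [35, 21, 27, 30, 16, 12, 15, 17, 11, 22, 20, 13, 19, 18, 25]⟩,
  ⟨3, 9, 6, 2, false,
    [35, 32, 16, 12, 15, 17, 11, 20, 22, 21, 30, 23, 19, 18, 25, 24, 13]⟩,
  ⟨3, 12, 8, 1, false,
    [29, 28, 45, 34, 23, 24, 35, 21, 27, 40, 26, 30, 17, 11, 15, 12, 16, 22, 25, 18, 19, 13, 20]⟩,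
  ⟨4, 5, 4, 2, false,
    [19, 18, 25, 27, 11, 15, 17, 16, 20]⟩,
  ⟨5, 5, 2, 8, false,
    [19, 18, 25, 16, 22, 20, 11, 12, 10]⟩,
  ⟨5, 6, 3, 9, false,
    [35, 27, 21, 25, 17, 16, 20, 22, 11, 12, 10]⟩,
  ⟨5, 7, 3, 11, false,
    [24, 23, 35, 21, 27, 30, 16, 17, 20, 22, 11, 12, 10]⟩,
  ⟨5, 10, 7, 1, false,
    [40, 32, 21, 27, 35, 24, 23, 30, 19, 18, 25, 26, 12, 10, 11, 22, 20, 17, 16]⟩,
  ⟨6, 5, 3, 9, false,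
    [35, 27, 21, 17, 25, 16, 22, 11, 20]⟩,
  ⟨6, 6, 3, 11, false,
    [24, 23, 35, 21, 27, 30, 16, 17, 20, 22, 11]⟩,
  ⟨6, 9, 5, 10, false,
    [35, 21, 27, 31, 45, 32, 26, 17, 30, 24, 18, 19, 25, 16, 22, 11, 20]⟩,
  ⟨7, 5, 3, 6, true,
    [14, 18, 20, 12, 21, 30, 22, 16, 25]⟩,
  ⟨7, 6, 5, 1, false,
    [27, 16, 30, 22, 21, 12, 20, 14, 18, 19, 25]⟩,
  ⟨7, 7, 5, 5, false,
    [40, 26, 27, 16, 30, 22, 21, 12, 20, 14, 18, 19, 25]⟩,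
  ⟨7, 8, 5, 9, false,
    [45, 26, 32, 35, 16, 27, 30, 22, 21, 12, 20, 14, 18, 19, 25]⟩,
  ⟨7, 9, 7, 2, false,
    [40, 34, 18, 24, 30, 19, 23, 14, 25, 16, 22, 26, 35, 27, 21, 12, 20]⟩,
  ⟨7, 12, 9, 2, false,
    [32, 31, 50, 39, 23, 40, 29, 45, 28, 19, 35, 26, 22, 25, 16, 27, 30, 24, 18, 14, 20, 12, 21]⟩,
  ⟨8, 5, 5, 0, false,
    [19, 18, 25, 16, 22, 30, 21, 12, 20]⟩,
  ⟨8, 6, 5, 3, false,
    [19, 18, 25, 22, 16, 30, 27, 35, 21, 12, 20]⟩,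
  ⟨8, 7, 6, 1, false,
    [24, 23, 35, 29, 18, 19, 25, 16, 22, 30, 21, 12, 20]⟩,
  ⟨8, 8, 5, 8, false,
    [35, 18, 29, 40, 23, 19, 30, 27, 16, 22, 25, 26, 12, 21, 20]⟩,
  ⟨8, 9, 6, 9, false,
    [50, 34, 28, 40, 24, 23, 35, 29, 18, 19, 25, 16, 22, 30, 21, 12, 20]⟩,
  ⟨8, 10, 8, 1, false,
    [40, 24, 28, 29, 45, 34, 23, 30, 19, 18, 25, 16, 22, 26, 35, 27, 21, 12, 20]⟩,
  ⟨8, 13, 10, 1, false,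
    [32, 31, 50, 39, 23, 45, 34, 55, 33, 40, 19, 28, 35, 29, 18, 24, 30, 27, 16, 22, 25, 26, 12, 21, 20]⟩,
  ⟨9, 5, 3, 6, false,
    [17, 11, 15, 12, 16, 25, 22, 21, 30]⟩,
  ⟨9, 6, 3, 10, false,
    [27, 21, 35, 22, 26, 25, 12, 16, 15, 17, 11]⟩,
  ⟨9, 9, 7, 1, false,
    [40, 32, 21, 27, 35, 23, 24, 18, 30, 26, 17, 11, 15, 12, 16, 22, 25]⟩,
  ⟨10, 5, 5, 1, false,
    [30, 27, 16, 22, 25, 21, 17, 11, 15]⟩,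
  ⟨10, 6, 5, 5, false,
    [40, 26, 27, 30, 16, 22, 25, 21, 17, 11, 15]⟩,
  ⟨10, 7, 5, 9, false,
    [45, 26, 32, 35, 16, 27, 30, 22, 21, 25, 17, 11, 15]⟩,
  ⟨10, 8, 5, 11, false,
    [29, 28, 45, 32, 26, 40, 27, 30, 16, 22, 25, 21, 17, 11, 15]⟩,
  ⟨10, 11, 7, 10, false,
    [35, 24, 23, 29, 40, 26, 27, 45, 31, 37, 55, 36, 32, 30, 11, 15, 17, 21, 25, 22, 16]⟩,
  ⟨11, 5, 3, 10, false,
    [27, 21, 35, 22, 26, 25, 12, 11, 10]⟩,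
  ⟨11, 6, 4, 8, false,
    [30, 18, 24, 23, 35, 21, 27, 25, 11, 12, 10]⟩,
  ⟨11, 7, 5, 6, false,
    [24, 18, 30, 22, 21, 35, 27, 40, 26, 25, 12, 11, 10]⟩,
  ⟨11, 8, 7, 1, false,
    [35, 23, 24, 18, 30, 22, 21, 32, 40, 27, 26, 25, 12, 11, 10]⟩,
  ⟨11, 9, 6, 8, false,
    [22, 21, 30, 18, 24, 35, 23, 40, 29, 28, 45, 32, 26, 25, 12, 11, 10]⟩,
  ⟨11, 10, 7, 7, false,
    [27, 31, 45, 23, 34, 50, 28, 40, 24, 18, 30, 21, 22, 35, 26, 25, 12, 11, 10]⟩,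
  ⟨11, 11, 9, 2, false,
    [45, 27, 31, 32, 50, 39, 23, 29, 40, 28, 24, 18, 30, 21, 22, 35, 26, 25, 12, 11, 10]⟩,
  ⟨11, 14, 11, 1, false,
    [60, 42, 31, 37, 55, 32, 36, 27, 50, 33, 29, 28, 45, 23, 34, 40, 18, 24, 30, 21, 22, 35, 26, 25, 12, 11, 10]⟩]

/-- start gadget: from profile `i` to the hub with `j` vertices -/
structure Stt where
  j : ℕ
  s : ℕ
  m : Bool
  r : List ℕ

def hubE (m : Bool) : ℕ := if m then 9 else 8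

def Stt.ok (i : ℕ) (e : Stt) : Bool :=
  VW T e.r && (e.r.length + 1 == 2 * e.j) && ck (fam i) e.r e.s [] &&
    (e.r.head? == some (sh e.s (hubE e.m)))

def stL : List Stt := [
  ⟨2, 1, false,
    [11, 12, 10]⟩,
  ⟨6, 4, false,
    [18, 25, 19, 13, 20, 17, 16, 15, 12, 11, 10]⟩,
  ⟨6, 4, false,
    [18, 25, 19, 20, 13, 14, 15, 16, 12, 11, 10]⟩,
  ⟨10, 7, false,
    [26, 40, 27, 21, 35, 23, 24, 30, 18, 25, 19, 13, 20, 22, 11, 17, 15, 12, 16]⟩,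
  ⟨3, 3, false,
    [16, 20, 17, 11, 15]⟩,
  ⟨8, 6, false,
    [23, 35, 24, 30, 18, 19, 25, 22, 16, 17, 20, 21, 12, 11, 10]⟩,
  ⟨7, 6, false,
    [23, 35, 24, 30, 18, 19, 25, 21, 17, 16, 20, 22, 11]⟩,
  ⟨10, 8, true,
    [29, 45, 28, 40, 24, 18, 30, 19, 23, 14, 25, 16, 22, 26, 35, 27, 21, 12, 20]⟩,
  ⟨11, 9, false,
    [31, 50, 32, 45, 26, 27, 40, 29, 23, 24, 35, 28, 19, 18, 25, 16, 22, 30, 21, 12, 20]⟩,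
  ⟨7, 6, false,
    [23, 35, 24, 18, 30, 21, 22, 25, 16, 12, 15, 17, 11]⟩,
  ⟨9, 8, false,
    [28, 45, 29, 40, 23, 24, 35, 26, 22, 21, 30, 16, 27, 25, 11, 17, 15]⟩,
  ⟨12, 10, false,
    [33, 55, 34, 23, 45, 27, 31, 50, 32, 21, 40, 28, 24, 30, 18, 29, 35, 22, 26, 25, 12, 11, 10]⟩]

def stt (i : ℕ) : Stt := stL.getD i ⟨0, 0, false, []⟩

/-- finishing gadget: from the hub, `n` more vertices, ending in profile `t` -/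
structure Fn where
  n : ℕ
  s : ℕ
  t : ℕ
  m : Bool
  r : List ℕ

def Fn.ok (e : Fn) : Bool :=
  decide (e.t < 12) && VW T (e.r ++ [8]) && (e.r.length == 2 * e.n) && ck [] e.r e.s (famM e.m e.t)

def fnL : List Fn := [
  ⟨0, 0, 0, false,
    []⟩,
  ⟨1, 0, 3, false,
    [10, 14]⟩,
  ⟨8, 5, 1, false,
    [20, 13, 19, 18, 25, 17, 21, 22, 30, 27, 16, 15, 12, 11, 10, 14]⟩,
  ⟨3, 0, 8, false,
    [17, 11, 15, 13, 14, 10]⟩,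
  ⟨4, 1, 6, false,
    [20, 17, 16, 15, 12, 11, 10, 14]⟩,
  ⟨5, 3, 1, false,
    [22, 11, 20, 17, 16, 12, 15, 13, 14, 10]⟩]

def fnn (i : ℕ) : Fn := fnL.getD i ⟨0, 0, 0, false, []⟩

/-- the pump -/
def pumpR : List ℕ := [18, 25, 19, 13, 20, 17, 16, 15, 12, 11, 10, 14]

/-- closing gadget data -/
structure Cl where
  m : Bool
  g : Bool
  z0 : ℕ
  z1 : ℕ
  z2 : ℕ
  z3 : ℕ
  n : ℕ
  r : List ℕ

/-- closing from profile `S` (no active path) at parity `p` -/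
def Cl.ok (S : List ℕ) (p : ℕ) (e : Cl) : Bool :=
  zrel e.g p e.z1 e.z3 && VW (TZ e.g p e.z0 e.z1 e.z2 e.z3) e.r && (e.r.length + 1 == 2 * e.n) &&
    ckc (e.g == (p == 1)) e.z0 e.z1 e.z2 e.z3 (if e.m then S.map mir else S) e.r

/-- closing from the hub at parity `p` -/
def Cl.okE (p : ℕ) (e : Cl) : Bool :=
  zrel e.g p e.z1 e.z3 && zok (e.g == (p == 1)) e.z0 e.z1 e.z2 e.z3 (hubE e.m) &&
    VW (TZ e.g p e.z0 e.z1 e.z2 e.z3)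
      (e.r ++ [ze (e.g == (p == 1)) e.z0 e.z1 e.z2 e.z3 (hubE e.m)]) &&
    (e.r.length == 2 * e.n) && ckc (e.g == (p == 1)) e.z0 e.z1 e.z2 e.z3 [] e.r

/-- closings from the hub, index `6 * p + (n - 1)` -/
def cleL : List Cl := [
  ⟨false, true, 0, 1, 1, 0, 1,
    [1, 2]⟩,
  ⟨false, false, 2, 0, 1, 1, 2,
    [4, 3, 0, 2]⟩,
  ⟨false, false, 4, 0, 1, 1, 3,
    [4, 8, 3, 12, 0, 2]⟩,
  ⟨false, true, 3, 2, 2, 1, 4,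
    [8, 1, 2, 4, 5, 6, 0, 3]⟩,
  ⟨false, false, 4, 1, 3, 2, 5,
    [0, 7, 12, 3, 4, 10, 1, 6, 8, 2]⟩,
  ⟨false, false, 6, 1, 3, 2, 6,
    [12, 2, 1, 6, 8, 16, 3, 4, 20, 7, 0, 10]⟩,
  ⟨false, true, 1, 0, 1, 0, 1,
    [0, 2]⟩,
  ⟨false, false, 1, 1, 1, 1, 2,
    [1, 2, 0, 3]⟩,
  ⟨false, false, 2, 1, 2, 1, 3,
    [4, 2, 1, 6, 0, 3]⟩,
  ⟨false, true, 4, 1, 2, 1, 4,
    [1, 2, 8, 4, 3, 12, 0, 6]⟩,
  ⟨false, true, 5, 1, 3, 1, 5,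
    [8, 6, 1, 2, 12, 4, 3, 16, 0, 10]⟩,
  ⟨false, true, 5, 2, 3, 2, 6,
    [16, 3, 4, 7, 12, 2, 5, 6, 8, 1, 10, 0]⟩]

def cle (i : ℕ) : Cl := cleL.getD i ⟨false, false, 0, 0, 0, 0, 0, []⟩

/-- closings from the profiles: index, parity, data -/
def clxT : List (ℕ × ℕ × Cl) := [
  (1, 0, ⟨false, false, 5, 1, 2, 2, 5,
    [1, 2, 8, 12, 3, 4, 16, 7, 0]⟩),
  (1, 0, ⟨false, false, 6, 1, 3, 2, 6,
    [12, 2, 1, 6, 8, 16, 3, 4, 20, 7, 0]⟩),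
  (1, 1, ⟨false, true, 5, 1, 3, 1, 5,
    [8, 6, 1, 2, 12, 4, 3, 16, 0]⟩),
  (1, 1, ⟨false, true, 5, 2, 3, 2, 6,
    [5, 6, 8, 3, 12, 4, 7, 0, 16, 2, 1]⟩),
  (2, 0, ⟨false, false, 5, 1, 2, 2, 5,
    [8, 2, 1, 6, 4, 12, 7, 16, 0]⟩),
  (2, 0, ⟨false, true, 5, 2, 4, 1, 6,
    [1, 2, 16, 4, 3, 12, 8, 6, 5, 14, 0]⟩),
  (2, 1, ⟨false, true, 4, 2, 2, 2, 5,
    [4, 5, 6, 8, 1, 2, 12, 7, 0]⟩),
  (2, 1, ⟨false, true, 5, 2, 3, 2, 6,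
    [4, 10, 5, 8, 6, 12, 1, 2, 16, 7, 0]⟩),
  (3, 0, ⟨false, false, 5, 1, 3, 2, 5,
    [16, 3, 4, 7, 12, 2, 1, 6, 8]⟩),
  (3, 0, ⟨false, false, 7, 1, 3, 2, 6,
    [20, 7, 4, 24, 3, 16, 12, 2, 1, 6, 8]⟩),
  (3, 0, ⟨false, false, 9, 1, 3, 2, 7,
    [16, 20, 3, 32, 4, 28, 7, 24, 8, 6, 1, 2, 12]⟩),
  (3, 0, ⟨false, false, 7, 2, 5, 3, 8,
    [16, 6, 5, 10, 12, 14, 1, 2, 24, 3, 8, 7, 20, 11, 4]⟩),
  (3, 0, ⟨false, false, 9, 2, 5, 3, 9,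
    [32, 3, 8, 14, 5, 6, 16, 10, 1, 2, 24, 7, 12, 20, 11, 28, 4]⟩),
  (3, 0, ⟨false, false, 11, 2, 5, 3, 10,
    [16, 6, 5, 10, 12, 14, 1, 2, 24, 7, 20, 28, 3, 40, 8, 32, 11, 36, 4]⟩),
  (3, 1, ⟨false, true, 5, 2, 2, 2, 5,
    [16, 3, 4, 7, 12, 1, 2, 5, 8]⟩),
  (3, 1, ⟨false, true, 5, 2, 4, 2, 6,
    [1, 6, 16, 2, 5, 10, 8, 3, 12, 7, 4]⟩),
  (3, 1, ⟨false, true, 6, 2, 5, 2, 7,
    [8, 7, 12, 14, 1, 10, 16, 6, 5, 2, 20, 3, 4]⟩),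
  (3, 1, ⟨false, true, 8, 2, 5, 2, 8,
    [12, 14, 1, 10, 16, 6, 5, 2, 20, 7, 8, 24, 3, 28, 4]⟩),
  (3, 1, ⟨false, true, 10, 2, 5, 2, 9,
    [20, 2, 5, 6, 16, 10, 1, 14, 12, 24, 7, 28, 8, 32, 3, 36, 4]⟩),
  (3, 1, ⟨false, true, 9, 3, 6, 3, 10,
    [5, 10, 20, 16, 7, 24, 12, 14, 9, 18, 8, 3, 32, 2, 1, 6, 28, 11, 4]⟩),
  (5, 0, ⟨false, false, 8, 1, 1, 2, 5,
    [8, 24, 3, 20, 12, 16, 7, 28, 0]⟩),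
  (5, 0, ⟨false, false, 6, 2, 3, 3, 6,
    [12, 6, 1, 2, 16, 7, 8, 3, 20, 11, 0]⟩),
  (5, 0, ⟨false, false, 8, 2, 3, 3, 7,
    [16, 2, 1, 6, 12, 20, 7, 24, 8, 3, 28, 11, 0]⟩),
  (5, 0, ⟨false, false, 9, 3, 2, 4, 8,
    [24, 3, 20, 11, 16, 1, 2, 5, 12, 28, 7, 8, 32, 15, 0]⟩),
  (5, 1, ⟨false, true, 5, 2, 3, 2, 5,
    [8, 3, 12, 6, 1, 2, 16, 7, 0]⟩),
  (5, 1, ⟨false, true, 6, 3, 2, 3, 6,
    [12, 5, 2, 1, 16, 7, 8, 3, 20, 11, 0]⟩),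
  (5, 1, ⟨false, true, 9, 2, 3, 2, 7,
    [12, 6, 1, 2, 16, 20, 3, 28, 8, 24, 7, 32, 0]⟩),
  (5, 1, ⟨false, true, 8, 3, 4, 3, 8,
    [12, 10, 5, 16, 6, 20, 1, 2, 24, 7, 8, 3, 28, 11, 0]⟩),
  (6, 0, ⟨false, false, 6, 2, 3, 3, 5,
    [20, 3, 8, 7, 16, 2, 1, 6, 12]⟩),
  (6, 0, ⟨false, false, 8, 2, 3, 3, 6,
    [24, 7, 8, 28, 3, 20, 16, 2, 1, 6, 12]⟩),
  (6, 0, ⟨false, false, 10, 2, 3, 3, 7,
    [20, 24, 3, 36, 8, 32, 7, 28, 12, 6, 1, 2, 16]⟩),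
  (6, 1, ⟨false, true, 6, 3, 2, 3, 5,
    [20, 3, 8, 7, 16, 1, 2, 5, 12]⟩),
  (6, 1, ⟨false, true, 6, 3, 4, 3, 6,
    [1, 6, 20, 2, 5, 10, 12, 3, 16, 7, 8]⟩),
  (6, 1, ⟨false, true, 7, 3, 5, 3, 7,
    [12, 7, 16, 14, 1, 10, 20, 6, 5, 2, 24, 3, 8]⟩),
  (7, 0, ⟨false, false, 7, 2, 2, 3, 5,
    [20, 3, 12, 2, 1, 6, 8, 11, 16]⟩),
  (7, 0, ⟨false, false, 10, 2, 1, 3, 6,
    [1, 2, 8, 28, 11, 16, 20, 24, 3, 32, 12]⟩),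
  (7, 0, ⟨false, false, 11, 2, 2, 3, 7,
    [20, 28, 3, 36, 12, 2, 1, 6, 8, 32, 11, 24, 16]⟩),
  (7, 0, ⟨false, false, 9, 3, 4, 4, 8,
    [28, 7, 12, 14, 1, 10, 16, 6, 5, 2, 20, 3, 24, 15, 8]⟩),
  (7, 0, ⟨false, false, 11, 3, 4, 4, 9,
    [24, 3, 28, 15, 12, 36, 7, 32, 16, 10, 1, 6, 20, 2, 5, 14, 8]⟩),
  (7, 0, ⟨false, false, 13, 3, 4, 4, 10,
    [44, 3, 16, 6, 5, 10, 12, 14, 1, 2, 24, 32, 7, 36, 20, 28, 15, 40, 8]⟩),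
  (7, 1, ⟨false, true, 6, 3, 2, 3, 5,
    [5, 6, 8, 11, 12, 3, 16, 2, 1]⟩),
  (7, 1, ⟨false, true, 7, 3, 3, 3, 6,
    [5, 10, 8, 11, 16, 6, 1, 2, 20, 3, 12]⟩),
  (7, 1, ⟨false, true, 8, 3, 4, 3, 7,
    [24, 2, 1, 14, 12, 10, 5, 6, 16, 3, 20, 11, 8]⟩),
  (7, 1, ⟨false, true, 10, 3, 4, 3, 8,
    [24, 2, 1, 6, 20, 11, 16, 28, 3, 32, 12, 10, 5, 14, 8]⟩),
  (7, 1, ⟨false, true, 12, 3, 4, 3, 9,
    [24, 2, 1, 6, 20, 32, 3, 40, 12, 10, 5, 14, 8, 36, 11, 28, 16]⟩),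
  (7, 1, ⟨false, true, 10, 4, 6, 4, 10,
    [12, 18, 9, 14, 16, 22, 1, 6, 32, 2, 5, 10, 24, 7, 20, 3, 28, 15, 8]⟩),
  (8, 0, ⟨false, false, 7, 2, 3, 3, 5,
    [20, 3, 12, 6, 1, 2, 16, 11, 8]⟩),
  (8, 0, ⟨false, false, 10, 2, 2, 3, 6,
    [1, 2, 12, 32, 3, 24, 20, 16, 11, 28, 8]⟩),
  (8, 0, ⟨false, false, 11, 2, 3, 3, 7,
    [20, 28, 3, 36, 12, 6, 1, 2, 16, 24, 11, 32, 8]⟩),
  (8, 0, ⟨false, false, 9, 3, 5, 4, 8,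
    [12, 14, 5, 6, 20, 10, 1, 2, 28, 3, 16, 7, 24, 15, 8]⟩),
  (8, 0, ⟨false, false, 11, 3, 5, 4, 9,
    [12, 14, 5, 6, 20, 10, 1, 2, 28, 24, 3, 36, 16, 7, 32, 15, 8]⟩),
  (8, 0, ⟨false, false, 13, 3, 5, 4, 10,
    [24, 36, 3, 32, 28, 2, 1, 10, 20, 6, 5, 14, 12, 44, 7, 16, 40, 15, 8]⟩),
  (8, 0, ⟨false, false, 15, 3, 5, 4, 11,
    [12, 14, 5, 2, 24, 6, 1, 10, 20, 44, 7, 28, 36, 32, 3, 52, 16, 40, 15, 48, 8]⟩),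
  (8, 1, ⟨false, true, 7, 3, 2, 3, 5,
    [20, 3, 12, 5, 2, 1, 16, 11, 8]⟩),
  (8, 1, ⟨false, true, 8, 3, 3, 3, 6,
    [24, 3, 12, 5, 6, 16, 1, 2, 20, 11, 8]⟩),
  (8, 1, ⟨false, true, 9, 3, 4, 3, 7,
    [1, 6, 20, 2, 5, 10, 12, 28, 3, 16, 24, 11, 8]⟩),
  (8, 1, ⟨false, true, 10, 3, 5, 3, 8,
    [20, 10, 1, 6, 24, 2, 5, 14, 12, 32, 3, 16, 28, 11, 8]⟩),
  (8, 1, ⟨false, true, 12, 3, 5, 3, 9,
    [16, 14, 1, 10, 20, 6, 5, 2, 24, 28, 3, 40, 12, 32, 11, 36, 8]⟩),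
  (8, 1, ⟨false, true, 11, 4, 6, 4, 10,
    [1, 14, 24, 10, 5, 6, 28, 2, 9, 18, 12, 7, 36, 16, 3, 20, 32, 15, 8]⟩),
  (8, 1, ⟨false, true, 12, 4, 7, 4, 11,
    [24, 28, 7, 12, 40, 2, 1, 10, 32, 6, 5, 22, 16, 18, 9, 14, 20, 3, 36, 15, 8]⟩),
  (9, 0, ⟨false, true, 6, 3, 3, 2, 5,
    [5, 10, 4, 9, 6, 12, 1, 2, 16]⟩),
  (9, 0, ⟨false, false, 8, 2, 3, 3, 6,
    [1, 2, 16, 3, 20, 12, 7, 28, 4, 11, 24]⟩),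
  (9, 0, ⟨false, false, 9, 2, 4, 3, 7,
    [28, 11, 4, 32, 7, 12, 24, 3, 16, 6, 1, 2, 20]⟩),
  (9, 1, ⟨false, true, 7, 2, 3, 2, 5,
    [1, 2, 16, 12, 3, 24, 4, 7, 20]⟩),
  (9, 1, ⟨false, true, 8, 2, 4, 2, 6,
    [24, 7, 4, 28, 3, 12, 20, 2, 1, 6, 16]⟩),
  (9, 1, ⟨false, true, 7, 3, 5, 3, 7,
    [1, 6, 24, 2, 5, 10, 16, 7, 12, 3, 20, 11, 4]⟩),
  (10, 0, ⟨false, false, 9, 2, 2, 3, 5,
    [12, 28, 3, 24, 16, 20, 7, 32, 4]⟩),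
  (10, 0, ⟨false, false, 8, 3, 3, 4, 6,
    [1, 2, 20, 16, 7, 24, 12, 3, 28, 11, 4]⟩),
  (10, 0, ⟨false, false, 9, 3, 4, 4, 7,
    [20, 6, 1, 2, 24, 16, 7, 28, 12, 3, 32, 11, 4]⟩),
  (10, 0, ⟨false, false, 11, 3, 4, 4, 8,
    [24, 2, 1, 6, 20, 28, 7, 32, 16, 36, 3, 12, 40, 11, 4]⟩),
  (10, 0, ⟨false, false, 10, 4, 5, 5, 9,
    [5, 2, 28, 6, 1, 10, 24, 11, 20, 3, 32, 16, 7, 12, 36, 15, 4]⟩),
  (10, 1, ⟨false, true, 7, 3, 3, 3, 5,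
    [1, 2, 20, 3, 12, 16, 7, 24, 4]⟩),
  (10, 1, ⟨true, true, 9, 3, 3, 3, 6,
    [1, 2, 20, 16, 7, 24, 12, 3, 28, 11, 4]⟩),
  (10, 1, ⟨false, true, 9, 4, 3, 4, 7,
    [20, 5, 2, 1, 24, 16, 7, 28, 12, 3, 32, 11, 4]⟩),
  (10, 1, ⟨false, true, 9, 4, 5, 4, 8,
    [5, 10, 20, 3, 24, 16, 7, 12, 28, 6, 1, 2, 32, 11, 4]⟩),
  (10, 1, ⟨false, true, 10, 4, 6, 4, 9,
    [20, 7, 24, 14, 1, 10, 28, 6, 5, 2, 32, 16, 3, 12, 36, 11, 4]⟩),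
  (11, 0, ⟨false, true, 7, 3, 4, 2, 5,
    [16, 6, 1, 20, 2, 12, 9, 14, 0]⟩),
  (11, 0, ⟨false, false, 9, 2, 4, 3, 6,
    [24, 3, 16, 6, 1, 2, 20, 12, 11, 32, 0]⟩),
  (11, 0, ⟨false, true, 8, 4, 5, 3, 7,
    [16, 3, 24, 2, 5, 6, 20, 10, 1, 12, 18, 13, 0]⟩),
  (11, 0, ⟨false, false, 10, 3, 5, 4, 8,
    [1, 6, 24, 2, 5, 10, 16, 7, 28, 20, 3, 12, 36, 15, 0]⟩),
  (11, 0, ⟨false, false, 11, 3, 6, 4, 9,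
    [16, 7, 32, 2, 1, 14, 20, 10, 5, 6, 24, 28, 3, 12, 40, 15, 0]⟩),
  (11, 0, ⟨false, false, 13, 3, 6, 4, 10,
    [16, 14, 5, 2, 28, 6, 1, 10, 24, 32, 7, 36, 20, 40, 3, 12, 48, 15, 0]⟩),
  (11, 0, ⟨false, false, 15, 3, 6, 4, 11,
    [28, 40, 3, 36, 32, 2, 1, 10, 24, 6, 5, 14, 16, 48, 7, 20, 44, 12, 15, 56, 0]⟩),
  (11, 0, ⟨false, false, 13, 4, 8, 5, 12,
    [16, 11, 40, 3, 24, 22, 1, 14, 32, 10, 5, 6, 36, 2, 9, 18, 20, 28, 19, 0, 48, 7, 12]⟩),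
  (11, 1, ⟨false, true, 8, 2, 4, 2, 5,
    [20, 2, 1, 6, 16, 12, 7, 28, 0]⟩),
  (11, 1, ⟨false, true, 9, 3, 3, 3, 6,
    [24, 3, 16, 5, 2, 1, 20, 12, 11, 32, 0]⟩),
  (11, 1, ⟨false, true, 10, 3, 4, 3, 7,
    [28, 3, 16, 5, 6, 20, 1, 2, 24, 12, 11, 36, 0]⟩),
  (11, 1, ⟨false, true, 11, 3, 5, 3, 8,
    [1, 6, 24, 2, 5, 10, 16, 32, 3, 20, 28, 12, 11, 40, 0]⟩),
  (11, 1, ⟨false, true, 12, 3, 6, 3, 9,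
    [24, 10, 1, 6, 28, 2, 5, 14, 16, 36, 3, 20, 32, 12, 11, 44, 0]⟩),
  (11, 1, ⟨false, true, 11, 4, 7, 4, 10,
    [1, 10, 32, 2, 9, 6, 28, 7, 20, 18, 5, 14, 24, 16, 15, 0, 40, 3, 12]⟩),
  (11, 1, ⟨false, true, 12, 4, 8, 4, 11,
    [16, 22, 9, 2, 36, 6, 5, 10, 32, 14, 1, 18, 28, 7, 24, 20, 15, 0, 44, 3, 12]⟩),
  (11, 1, ⟨false, true, 14, 4, 8, 4, 12,
    [28, 32, 7, 16, 44, 2, 1, 10, 36, 6, 5, 22, 20, 18, 9, 14, 24, 40, 3, 12, 52, 15, 0]⟩)]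

/-- one step of a chain -/
structure Stp where
  n : ℕ
  s : ℕ
  r : List ℕ
  S' : List ℕ

def chainOK (S : List ℕ) : List Stp → Bool
  | [] => true
  | st :: l => VW T st.r && (st.r.length + 1 == 2 * st.n) && ck S st.r st.s st.S' && chainOK st.S' l

def chainS (S : List ℕ) : List Stp → List ℕ
  | [] => S
  | st :: l => chainS st.S' l

/-- chain reading 3, ending in profile 3 (mirrored) -/
def ch3 : List Stp := [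
  ⟨3, 1, [15, 16, 12, 11, 10],
    [10, 13]⟩]

/-- chain reading 3 3, ending in profile 4 (mirrored) -/
def ch33 : List Stp := [
  ⟨3, 1, [15, 16, 12, 11, 10],
    [10, 13]⟩,
  ⟨3, 1, [12, 16, 15, 17, 11],
    [10, 11, 14, 13]⟩]

/-- chain reading 4, ending in profile 11 (mirrored) -/
def ch4 : List Stp := [
  ⟨4, 0, [17, 16, 20, 18, 14, 13, 15],
    [15, 20, 17, 16, 14, 13, 18]⟩]

/-- chain reading 4 4, ending in profile 7 -/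
def ch44 : List Stp := [
  ⟨4, 1, [17, 16, 20, 21, 12, 11, 10],
    [15, 13, 18, 14]⟩,
  ⟨4, 2, [25, 16, 22, 20, 11, 12, 10],
    [10, 15, 11, 17, 13]⟩]

/-- chain reading 3 4, ending in profile 8 -/
def ch34 : List Stp := [
  ⟨3, 0, [14, 18, 20, 19, 13],
    [20, 13, 18, 14, 19]⟩,
  ⟨4, 2, [25, 22, 16, 15, 12, 11, 10],
    [10, 15, 11, 17, 13, 14]⟩]

/-- chain reading 3 3 4, ending in profile 3 (mirrored) -/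
def ch334 : List Stp := [
  ⟨3, 1, [15, 16, 12, 11, 10],
    [10, 13]⟩,
  ⟨3, 1, [12, 16, 15, 17, 11],
    [10, 11, 13, 14]⟩,
  ⟨4, 3, [25, 17, 21, 20, 12, 16, 15],
    [10, 13]⟩]

/-- chain reading 3 4 4, ending in profile 4 (mirrored) -/
def ch344 : List Stp := [
  ⟨3, 1, [15, 16, 12, 11, 10],
    [10, 13]⟩,
  ⟨4, 1, [12, 21, 20, 16, 17, 11, 15],
    [10, 15, 11, 13, 18, 14]⟩,
  ⟨4, 3, [22, 16, 25, 17, 21, 12, 20],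
    [10, 11, 14, 13]⟩]

/-- chain reading 3 3 3, ending in profile 0 -/
def ch333 : List Stp := [
  ⟨3, 1, [15, 16, 12, 11, 10],
    [10, 13]⟩,
  ⟨3, 0, [25, 19, 18, 14, 20],
    [10, 20, 25, 13, 18, 14, 19]⟩,
  ⟨3, 4, [12, 16, 15, 17, 11],
    []⟩]

/-- chain reading 4 4 4, ending in profile 0 -/
def ch444 : List Stp := [
  ⟨4, 1, [40, 27, 26, 25, 12, 11, 10],
    [20, 35, 23, 24]⟩,
  ⟨4, 2, [14, 13, 15, 16, 12, 11, 10],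
    [10, 25, 11, 18, 19]⟩,
  ⟨4, 4, [14, 13, 15, 12, 16, 17, 20],
    []⟩]

/-- chain reading 3 4 3 4, ending in profile 0 -/
def ch3344 : List Stp := [
  ⟨3, 1, [15, 16, 12, 11, 10],
    [10, 13]⟩,
  ⟨4, 1, [12, 21, 20, 16, 17, 11, 15],
    [10, 15, 11, 13, 18, 14]⟩,
  ⟨3, 0, [35, 24, 23, 19, 30],
    [10, 15, 30, 35, 11, 13, 18, 23, 14, 19, 24]⟩,
  ⟨4, 6, [22, 16, 25, 17, 21, 12, 20],
    []⟩]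

/-- chain for the closing group 2 3 3 at parity 1 -/
def cc233_1 : List Stp := [
  ⟨2, 0, [17, 21, 25],
    [25, 21, 17]⟩,
  ⟨3, 1, [15, 16, 12, 11, 10],
    [10, 20, 13, 18, 14]⟩]

def cd233_1 : Cl :=
  ⟨false, true, 5, 2, 2, 1, 3,
    [5, 2, 4, 6, 1]⟩

/-- chain for the closing group 3 3 at parity 1 -/
def cc33_1 : List Stp := [
  ⟨3, 1, [15, 16, 12, 11, 10],
    [10, 13]⟩]

def cd33_1 : Cl :=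
  ⟨false, false, 4, 1, 0, 2, 3,
    [12, 3, 4, 7, 8]⟩

/-- chain for the closing group 3 3 3 at parity 0 -/
def cc333_0 : List Stp := [
  ⟨3, 1, [15, 16, 12, 11, 10],
    [10, 13]⟩,
  ⟨3, 1, [12, 16, 15, 17, 11],
    [10, 11, 13, 14]⟩]

def cd333_0 : Cl :=
  ⟨false, false, 5, 1, 1, 2, 3,
    [8, 3, 12, 7, 4]⟩

/-- chain for the closing group 3 3 3 at parity 1 -/
def cc333_1 : List Stp := [
  ⟨3, 1, [15, 16, 12, 11, 10],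
    [10, 13]⟩,
  ⟨3, 1, [12, 16, 15, 17, 11],
    [10, 11, 13, 14]⟩]

def cd333_1 : Cl :=
  ⟨false, true, 6, 1, 1, 1, 3,
    [8, 12, 3, 16, 4]⟩

/-- chain for the closing group 3 3 3 3 3 at parity 1 -/
def cc33333_1 : List Stp := [
  ⟨3, 1, [15, 16, 12, 11, 10],
    [10, 13]⟩,
  ⟨3, 0, [20, 17, 16, 12, 15],
    [10, 15, 20, 16, 12, 17, 13]⟩,
  ⟨3, 1, [19, 18, 25, 27, 11],
    [10, 15, 20, 11, 16, 17, 13, 14, 24]⟩,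
  ⟨3, 4, [19, 18, 25, 26, 12],
    [16, 14]⟩]

def cd33333_1 : Cl :=
  ⟨false, true, 3, 1, 2, 1, 3,
    [1, 2, 8, 3, 0]⟩

/-- chain for the closing group 3 3 4 at parity 0 -/
def cc334_0 : List Stp := [
  ⟨3, 1, [15, 16, 12, 11, 10],
    [10, 13]⟩,
  ⟨3, 1, [12, 16, 15, 17, 11],
    [10, 11, 13, 14]⟩]

def cd334_0 : Cl :=
  ⟨false, false, 7, 1, 1, 2, 4,
    [12, 16, 3, 8, 20, 7, 4]⟩

/-- chain for the closing group 3 3 4 at parity 1 -/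
def cc334_1 : List Stp := [
  ⟨3, 1, [15, 16, 12, 11, 10],
    [10, 13]⟩,
  ⟨3, 1, [12, 16, 15, 17, 11],
    [10, 11, 13, 14]⟩]

def cd334_1 : Cl :=
  ⟨true, true, 5, 2, 2, 2, 4,
    [1, 2, 12, 8, 3, 16, 4]⟩

/-- chain for the closing group 3 3 4 4 at parity 0 -/
def cc3344_0 : List Stp := [
  ⟨3, 1, [15, 16, 12, 11, 10],
    [10, 13]⟩,
  ⟨3, 1, [12, 16, 15, 17, 11],
    [10, 11, 13, 14]⟩,
  ⟨4, 3, [25, 17, 21, 20, 12, 16, 15],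
    [10, 13]⟩]

def cd3344_0 : Cl :=
  ⟨false, true, 4, 2, 1, 2, 4,
    [1, 2, 8, 7, 4, 3, 12]⟩

/-- chain for the closing group 3 3 4 4 at parity 1 -/
def cc3344_1 : List Stp := [
  ⟨3, 1, [15, 16, 12, 11, 10],
    [10, 13]⟩,
  ⟨3, 0, [25, 19, 18, 14, 20],
    [10, 20, 25, 13, 18, 14, 19]⟩,
  ⟨4, 4, [30, 26, 17, 11, 15, 12, 16],
    [10, 16]⟩]

def cd3344_1 : Cl :=
  ⟨true, true, 3, 2, 3, 1, 4,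
    [5, 2, 8, 3, 4, 10, 1]⟩

/-- chain for the closing group 3 3 4 4 4 at parity 1 -/
def cc33444_1 : List Stp := [
  ⟨3, 1, [15, 16, 12, 11, 10],
    [10, 13]⟩,
  ⟨3, 0, [14, 18, 20, 22, 11],
    [10, 20, 11, 22, 13, 18, 14]⟩,
  ⟨4, 3, [17, 21, 25, 26, 12, 16, 15],
    [10, 11, 13, 18, 14]⟩,
  ⟨4, 3, [25, 17, 21, 20, 12, 16, 15],
    [10, 11, 13]⟩]

def cd33444_1 : Cl :=
  ⟨false, false, 7, 1, 0, 2, 4,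
    [12, 16, 3, 8, 20, 7, 4]⟩

/-- chain for the closing group 3 4 at parity 0 -/
def cc34_0 : List Stp := [
  ⟨3, 1, [15, 16, 12, 11, 10],
    [10, 13]⟩]

def cd34_0 : Cl :=
  ⟨false, true, 4, 2, 1, 2, 4,
    [1, 2, 8, 7, 4, 3, 12]⟩

/-- chain for the closing group 3 4 at parity 1 -/
def cc34_1 : List Stp := [
  ⟨3, 1, [15, 16, 12, 11, 10],
    [10, 13]⟩]

def cd34_1 : Cl :=
  ⟨false, false, 6, 1, 0, 2, 4,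
    [12, 7, 8, 16, 3, 20, 4]⟩

/-- chain for the closing group 3 4 4 at parity 0 -/
def cc344_0 : List Stp := [
  ⟨3, 1, [25, 26, 12, 11, 10],
    [20, 23]⟩,
  ⟨4, 2, [14, 13, 15, 16, 12, 11, 10],
    [10, 11, 18]⟩]

def cd344_0 : Cl :=
  ⟨false, true, 5, 2, 1, 2, 4,
    [5, 2, 4, 7, 12, 3, 8]⟩

/-- chain for the closing group 3 4 4 at parity 1 -/
def cc344_1 : List Stp := [
  ⟨3, 1, [25, 26, 12, 11, 10],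
    [20, 23]⟩,
  ⟨4, 2, [14, 13, 15, 16, 12, 11, 10],
    [10, 11, 18]⟩]

def cd344_1 : Cl :=
  ⟨false, true, 5, 2, 2, 1, 4,
    [16, 3, 4, 6, 1, 2, 8]⟩

/-- chain for the closing group 4 4 at parity 0 -/
def cc44_0 : List Stp := [
  ⟨4, 1, [17, 16, 20, 21, 12, 11, 10],
    [15, 13, 18, 14]⟩]

def cd44_0 : Cl :=
  ⟨false, true, 6, 2, 1, 2, 4,
    [16, 3, 8, 12, 7, 20, 0]⟩

/-- chain for the closing group 4 4 at parity 1 -/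
def cc44_1 : List Stp := [
  ⟨4, 1, [17, 16, 20, 21, 12, 11, 10],
    [15, 13, 18, 14]⟩]

def cd44_1 : Cl :=
  ⟨false, false, 5, 2, 1, 3, 4,
    [12, 7, 8, 3, 16, 11, 0]⟩

/-- chain for the closing group 4 4 4 at parity 0 -/
def cc444_0 : List Stp := [
  ⟨4, 1, [20, 17, 16, 15, 12, 11, 10],
    [10, 15, 13, 14]⟩,
  ⟨4, 2, [12, 21, 20, 11, 22, 16, 25],
    [10, 15, 11, 16, 17]⟩]

def cd444_0 : Cl :=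
  ⟨true, true, 5, 2, 3, 2, 4,
    [5, 6, 8, 10, 1, 2, 16]⟩

/-- chain for the closing group 4 4 4 at parity 1 -/
def cc444_1 : List Stp := [
  ⟨4, 1, [17, 16, 20, 21, 12, 11, 10],
    [15, 13, 18, 14]⟩,
  ⟨4, 2, [25, 16, 22, 20, 11, 12, 10],
    [10, 15, 11, 17, 13]⟩]

def cd444_1 : Cl :=
  ⟨false, false, 6, 2, 1, 3, 4,
    [1, 2, 8, 11, 12, 3, 16]⟩

end Pool.Agent.Lib.MP_3c4a39_co
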