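import Pool.Agent.Lib.MP_3c4a39_co.Checks
import Pool.Agent.Lib.MP_3c4a39_co.Graph

namespace Pool.Agent.Lib.MP_3c4a39_co

theorem mir_mir (c : ℕ) : mir (mir c) = c := by
  unfold mir; split_ifs <;> omega

theorem map_mir_mir (l : List ℕ) : (l.map mir).map mir = l := by
  rw [List.map_map]
  conv_rhs => rw [← List.map_id l]
  apply List.map_congr_left
  intro c _
  exact mir_mir c

theorem Inv.perm {h : ℕ} {S F F' : List ℕ} (H : Inv h S F) (hF : F.Perm F') : Inv h S F' := by
  obtain ⟨ps, hv, hlen, hp⟩ := H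
  obtain ⟨ps', h1, h2⟩ := exists_perm_of_map_perm List.length
    (hF.map (fun n => 2 * n - 1)) ps hlen
  exact ⟨ps', fun p hp => hv p (h1.mem_iff.mpr hp), h2, (h1.symm.flatten).trans hp⟩

theorem InvA.contFinish {h : ℕ} {S F : List ℕ} {e m : ℕ} (H : InvA h S e m F) (m' : ℕ)
    (r : List ℕ) (s : ℕ) (S' : List ℕ) (h1 : VW T (r ++ [e]) = true) (h2 : r.length = 2 * m')
    (h3 : ck S r s S' = true) : Inv (h + s) S' ((m + m') :: F) := by
  obtain ⟨c, ps, hv, hlen, hc, hcl, hp⟩ := H
  have key : VW T (r.map (sh h) ++ sh h e :: c) = true := by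
    apply VW_glue
    · have := VW_map (R := T) (R' := T) (fun a e b => T_sh h) _ h1
      rw [List.map_append] at this
      exact this
    · exact hc
  have hperm := ck_perm h h3 hp
  refine ⟨(r.map (sh h) ++ sh h e :: c) :: ps, ?_, ?_, ?_⟩
  · intro p hp'
    rcases List.mem_cons.mp hp' with rfl | hp'
    · exact key
    · exact hv p hp'
  · simp only [List.map_cons, hlen, List.length_append, List.length_map, List.length_cons]
    congr 1
    omega
  · rw [List.flatten_cons, List.append_assoc]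
    exact hperm

theorem unmirror {h t : ℕ} {m : Bool} {F : List ℕ} (H : Inv h (famM m t) F) : Inv h (fam t) F := by
  cases m
  · exact H
  · have h1 : Inv h ((fam t).map mir) F := H
    have h2 := h1.mirror
    rwa [map_mir_mir] at h2

theorem unmirrorA {h k : ℕ} {m : Bool} {F : List ℕ} (H : InvA h [] (hubE m) k F) :
    InvA h [] 8 k F := by
  cases m
  · exact H
  · have h1 : InvA h [] 9 k F := H
    exact h1.mirror

theorem mirrorA {h k : ℕ} {F : List ℕ} (m : Bool) (H : InvA h [] 8 k F) :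
    InvA h [] (hubE m) k F := by
  cases m
  · exact H
  · exact H.mirror

/-- to the hub -/
theorem toHub {h i : ℕ} {F : List ℕ} (hi : i < 12) (H : Inv h (fam i) F) :
    InvA (h + (stt i).s) [] 8 (stt i).j F := by
  have h1 := List.all_eq_true.mp stt_ok i (List.mem_range.mpr hi)
  simp only [Bool.and_eq_true, decide_eq_true_eq, Stt.ok, beq_iff_eq] at h1
  obtain ⟨⟨⟨⟨h2, h3⟩, h4⟩, h5⟩, -⟩ := h1
  exact unmirrorA (H.start (stt i).j (stt i).r (stt i).s [] (hubE (stt i).m) h2 h3 h4 h5)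

/-- pumping at the hub -/
theorem pump {h m : ℕ} {F : List ℕ} (H : InvA h [] 8 m F) (k : ℕ) :
    InvA (h + 4 * k) [] 8 (m + 6 * k) F := by
  induction k with
  | zero => exact H
  | succ k ih =>
    have := ih.cont 6 pumpR 4 [] 8 pump_ok.1 rfl pump_ok.2.1 pump_ok.2.2
    have e1 : h + 4 * (k + 1) = h + 4 * k + 4 := by ring
    have e2 : m + 6 * (k + 1) = m + 6 * k + 6 := by ring
    rw [e1, e2]
    exact this

/-- from the hub to a profile -/
theorem fromHub {h m r : ℕ} {F : List ℕ} (H : InvA h [] 8 m F) (hr : r < 6) :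
    ∃ h' j, j < 12 ∧ Inv h' (fam j) ((m + (fnn r).n) :: F) := by
  have h1 := List.all_eq_true.mp fnn_ok r (List.mem_range.mpr hr)
  simp only [Bool.and_eq_true, decide_eq_true_eq, Fn.ok, beq_iff_eq] at h1
  obtain ⟨⟨⟨⟨⟨h2, h3⟩, h4⟩, h5⟩, -⟩, -⟩ := h1
  exact ⟨h + (fnn r).s, (fnn r).t, h2, unmirror (H.contFinish _ _ _ _ h3 h4 h5)⟩

/-- every component with at least five vertices can be read -/
theorem step {h i : ℕ} {F : List ℕ} (hi : i < 12) (H : Inv h (fam i) F) (n : ℕ) (hn : 5 ≤ n) :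
    ∃ h' j, j < 12 ∧ Inv h' (fam j) (n :: F) := by
  set r := (n + 12 - (stt i).j) % 6 with hr
  have hr6 : r < 6 := Nat.mod_lt _ (by norm_num)
  have hj := List.all_eq_true.mp stt_ok i (List.mem_range.mpr hi)
  have hf := List.all_eq_true.mp fnn_ok r (List.mem_range.mpr hr6)
  simp only [Bool.and_eq_true, decide_eq_true_eq, beq_iff_eq] at hj hf
  have hj12 := hj.2
  have hf8 := hf.1.2
  have hfm := hf.2
  by_cases hbig : (stt i).j + (fnn r).n ≤ n
  · -- long gadget
    have h1 := pump (toHub hi H) ((n - (stt i).j - (fnn r).n) / 6)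
    obtain ⟨h', j, hj', h2⟩ := fromHub h1 hr6
    refine ⟨h', j, hj', ?_⟩
    have : (stt i).j + 6 * ((n - (stt i).j - (fnn r).n) / 6) + (fnn r).n = n := by omega
    rwa [this] at h2
  · have hn30 : n < 30 := by omega
    have h1 := List.all_eq_true.mp (List.all_eq_true.mp cover i (List.mem_range.mpr hi)) n
      (List.mem_range.mpr hn30)
    simp only [Bool.or_eq_true, decide_eq_true_eq, List.any_eq_true, Bool.and_eq_true,
      beq_iff_eq] at h1
    rcases h1 with (h1 | h1) | ⟨e, he, he1, he2⟩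
    · omega
    · exact absurd h1 hbig
    · have h2 := List.all_eq_true.mp exT_ok e he
      simp only [Ex.ok, Bool.and_eq_true, decide_eq_true_eq, beq_iff_eq] at h2
      obtain ⟨⟨⟨h3, h4⟩, h5⟩, h6⟩ := h2
      rw [he1] at h6
      rw [he2] at h5
      exact ⟨h + e.s, e.t, h3, unmirror (H.exact n e.r e.s _ h4 (by omega) h6)⟩

theorem walk (L : List ℕ) (hL : ∀ x ∈ L, 5 ≤ x) {h i : ℕ} {F : List ℕ} (hi : i < 12)
    (H : Inv h (fam i) F) : ∃ h' j, j < 12 ∧ Inv h' (fam j) (L ++ F) := by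
  induction L with
  | nil => exact ⟨h, i, hi, H⟩
  | cons x L ih =>
    obtain ⟨h', j, hj, h1⟩ := ih (fun y hy => hL y (List.mem_cons_of_mem _ hy))
    exact step hj h1 x (hL x List.mem_cons_self)

theorem Inv.closeCl {h : ℕ} {S F : List ℕ} (H : Inv h S F) (c : Cl) (h1 : c.ok S (h % 2) = true) :
    EM (c.n :: F) := by
  simp only [Cl.ok, Bool.and_eq_true, beq_iff_eq] at h1
  obtain ⟨⟨⟨h2, h3⟩, h4⟩, h5⟩ := h1
  have H' : Inv h (if c.m = true then S.map mir else S) F := by
    cases c.m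
    · exact H
    · exact H.mirror
  exact Inv.closeP ⟨c.g, h, c.z0, c.z1, c.z2, c.z3⟩ H' c.n c.r h2 h3 (by omega) h5

theorem InvA.closeCl {h k : ℕ} {F : List ℕ} (H : InvA h [] 8 k F) (c : Cl)
    (h1 : c.okE (h % 2) = true) : EM ((k + c.n) :: F) := by
  simp only [Cl.okE, Bool.and_eq_true] at h1
  obtain ⟨⟨⟨⟨h2, h3⟩, h4⟩, h5⟩, h6⟩ := h1
  exact InvA.closeP ⟨c.g, h, c.z0, c.z1, c.z2, c.z3⟩ (mirrorA c.m H) c.n c.r h2 h3 h4
    (by simpa using h5) h6

theorem close {h i : ℕ} {F : List ℕ} (hi : i < 12) (H : Inv h (fam i) F) (n : ℕ)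
    (hn : 5 ≤ n ∨ (stt i).j < n) : EM (n :: F) := by
  have hh : h % 2 < 2 := Nat.mod_lt _ (by norm_num)
  have hj := List.all_eq_true.mp stt_ok i (List.mem_range.mpr hi)
  simp only [Bool.and_eq_true, decide_eq_true_eq] at hj
  have hj12 := hj.2
  by_cases hbig : (stt i).j < n
  · set j := (n - (stt i).j - 1) % 6 with hjd
    have hj6 : j < 6 := Nat.mod_lt _ (by norm_num)
    have h1 := pump (toHub hi H) ((n - (stt i).j - 1) / 6)
    set h' := h + (stt i).s + 4 * ((n - (stt i).j - 1) / 6) with hh'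
    have h2 := List.all_eq_true.mp (List.all_eq_true.mp cle_ok (h' % 2)
      (List.mem_range.mpr (Nat.mod_lt _ (by norm_num)))) j (List.mem_range.mpr hj6)
    simp only [Bool.and_eq_true, beq_iff_eq] at h2
    have h3 := h1.closeCl _ h2.1
    rw [h2.2] at h3
    have : (stt i).j + 6 * ((n - (stt i).j - 1) / 6) + (j + 1) = n := by omega
    rwa [this] at h3
  · have h1 := List.all_eq_true.mp (List.all_eq_true.mp (List.all_eq_true.mp cover_cl i
      (List.mem_range.mpr hi)) (h % 2) (List.mem_range.mpr hh)) n (List.mem_range.mpr (by omega))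
    simp only [Bool.or_eq_true, decide_eq_true_eq, List.any_eq_true, Bool.and_eq_true,
      beq_iff_eq] at h1
    rcases h1 with (h1 | h1) | ⟨⟨a, b, c⟩, he, ⟨he1, he2⟩, he3⟩
    · omega
    · exact absurd h1 hbig
    · have h2 := List.all_eq_true.mp clxT_ok _ he
      simp only at he1 he2 he3 h2
      rw [he1, he2] at h2
      rw [← he3]
      exact H.closeCl c h2

/-! Chains -/

def lenS (l : List Stp) : ℕ := (l.map Stp.s).sum
def lenN (l : List Stp) : List ℕ := (l.map Stp.n).reverse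

theorem chain_inv (l : List Stp) : ∀ {h : ℕ} {S F : List ℕ}, Inv h S F → chainOK S l = true →
    Inv (h + lenS l) (chainS S l) (lenN l ++ F) := by
  induction l with
  | nil => intro h S F H _; simpa [lenS, lenN, chainS] using H
  | cons st l ih =>
    intro h S F H hok
    simp only [chainOK, Bool.and_eq_true, beq_iff_eq] at hok
    obtain ⟨⟨⟨h1, h2⟩, h3⟩, h4⟩ := hok
    have h5 := ih (H.exact st.n st.r st.s st.S' h1 (by omega) h3) h4
    have e1 : h + lenS (st :: l) = h + st.s + lenS l := by simp [lenS]; ring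
    have e2 : lenN (st :: l) ++ F = lenN l ++ st.n :: F := by simp [lenN]
    rw [e1, e2]
    exact h5

/-- a closing group -/
theorem group (cc : List Stp) (cd : Cl) {h : ℕ} {F : List ℕ} (p : ℕ) (H : Inv h [] F)
    (hp : h % 2 = p) (h1 : chainOK [] cc = true)
    (h2 : cd.ok (chainS [] cc) ((p + lenS cc) % 2) = true) :
    EM (cd.n :: (lenN cc ++ F)) := by
  have h3 := chain_inv cc H h1
  have e : (h + lenS cc) % 2 = (p + lenS cc) % 2 := by omega
  rw [← e] at h2
  exact h3.closeCl cd h2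

end Pool.Agent.Lib.MP_3c4a39_co
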